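import Pool.Agent.Helper60.SB.Defs2

/-!
Module H1: signed sums of building blocks lie in the class `H^r_p`.
-/

open Finset MeasureTheory
open scoped ENNReal Real Topology fwdDiff

namespace Pool.Agent.Helper42.SB

open Pool.Agent.Helper60.SB

instance prob_tor1 : IsProbabilityMeasure tor1 := by
  constructor
  have hpi : (0 : ℝ) < 2 * π := by positivity
  simp only [tor1, Measure.smul_apply, Measure.restrict_apply MeasurableSet.univ, Set.univ_inter,
    Real.volume_Ico, sub_zero, smul_eq_mul]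
  exact ENNReal.inv_mul_cancel (by simpa using hpi) ENNReal.ofReal_ne_top

instance prob_tor (d : ℕ) : IsProbabilityMeasure (tor d) := by
  unfold tor; infer_instance

/-- the one-variable sum over scales, normalised -/
lemma geom_aux (r δ : ℝ) (hr : 0 < r) (hδ : 0 < δ) (m : ℕ) : ∀ h : ℝ, 0 < h →
    ∑ s ∈ range m, min (((2 : ℝ) ^ s * h) ^ (-r)) (((2 : ℝ) ^ s * h) ^ δ) ≤
      if 1 ≤ h then 1 / (1 - 2 ^ (-r)) else
        1 / (1 - 2 ^ (-r)) + 1 + 1 / (2 ^ δ - 1) * (1 - h ^ δ) := by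
  have h2r : (2 : ℝ) ^ (-r) < 1 := Real.rpow_lt_one_of_one_lt_of_neg (by norm_num) (by linarith)
  have h2r0 : (0 : ℝ) < 2 ^ (-r) := by positivity
  have h2d : (1 : ℝ) < 2 ^ δ := Real.one_lt_rpow (by norm_num) hδ
  have hA : (0 : ℝ) < 1 / (1 - 2 ^ (-r)) := by
    apply one_div_pos.mpr; linarith
  have hB : (0 : ℝ) < 1 / (2 ^ δ - 1) := by
    apply one_div_pos.mpr; linarith
  have hbig : ∀ (m : ℕ) (h : ℝ), 1 ≤ h →
      ∑ s ∈ range m, min (((2 : ℝ) ^ s * h) ^ (-r)) (((2 : ℝ) ^ s * h) ^ δ) ≤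
        1 / (1 - 2 ^ (-r)) := by
    intro m h hh
    calc ∑ s ∈ range m, min (((2 : ℝ) ^ s * h) ^ (-r)) (((2 : ℝ) ^ s * h) ^ δ)
        ≤ ∑ s ∈ range m, ((2 : ℝ) ^ (-r)) ^ s := by
          apply Finset.sum_le_sum
          intro s _
          refine (min_le_left _ _).trans ?_
          rw [← Real.rpow_natCast ((2 : ℝ) ^ (-r)), ← Real.rpow_mul (by norm_num),
            mul_comm (-r), Real.rpow_mul (by norm_num), Real.rpow_natCast]
          apply Real.rpow_le_rpow_of_nonpos (by positivity) _ (by linarith)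
          exact le_mul_of_one_le_right (by positivity) hh
      _ ≤ 1 / (1 - 2 ^ (-r)) := by
          rw [geom_sum_eq (ne_of_lt h2r)]
          rw [← neg_div_neg_eq, neg_sub, neg_sub]
          apply div_le_div_of_nonneg_right _ (by linarith)
          have : (0 : ℝ) ≤ ((2 : ℝ) ^ (-r)) ^ m := by positivity
          linarith
  induction m with
  | zero =>
    intro h hh
    split_ifs with h1
    · simpa using hA.le
    · have : h ^ δ ≤ 1 := Real.rpow_le_one hh.le (by linarith) hδ.le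
      have : 0 ≤ 1 / ((2 : ℝ) ^ δ - 1) * (1 - h ^ δ) := mul_nonneg hB.le (by linarith)
      simp only [range_zero, sum_empty]
      linarith
  | succ m ih =>
    intro h hh
    split_ifs with h1
    · exact hbig _ _ h1
    · push Not at h1
      rw [Finset.sum_range_succ']
      have e : ∑ k ∈ range m, min (((2 : ℝ) ^ (k + 1) * h) ^ (-r)) (((2 : ℝ) ^ (k + 1) * h) ^ δ) =
          ∑ k ∈ range m, min (((2 : ℝ) ^ k * (2 * h)) ^ (-r)) (((2 : ℝ) ^ k * (2 * h)) ^ δ) := by
        apply Finset.sum_congr rfl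
        intro k _
        rw [pow_succ, mul_assoc]
      rw [e]
      have h3 := ih (2 * h) (by positivity)
      have h4 : min (((2 : ℝ) ^ 0 * h) ^ (-r)) (((2 : ℝ) ^ 0 * h) ^ δ) ≤ h ^ δ := by
        refine (min_le_right _ _).trans ?_
        simp
      have h5 : h ^ δ ≤ 1 := Real.rpow_le_one hh.le (by linarith) hδ.le
      refine (add_le_add h3 h4).trans ?_
      split_ifs with h6
      · have : 0 ≤ 1 / ((2 : ℝ) ^ δ - 1) * (1 - h ^ δ) := mul_nonneg hB.le (by linarith)
        linarith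
      · have e2 : (2 * h) ^ δ = 2 ^ δ * h ^ δ := Real.mul_rpow (by norm_num) hh.le
        have e3 : 1 / ((2 : ℝ) ^ δ - 1) * (1 - (2 * h) ^ δ) + h ^ δ =
            1 / ((2 : ℝ) ^ δ - 1) * (1 - h ^ δ) := by
          rw [e2]
          have : ((2 : ℝ) ^ δ - 1) ≠ 0 := by linarith
          field_simp
          ring
        linarith

/-- the one-variable sum over scales -/
lemma geom_sum_le (r : ℝ) (hr : 0 < r) (l : ℕ) (hl : r < l) :
    ∃ C > 0, ∀ (m : ℕ) (h : ℝ), 0 ≤ h →
      ∑ s ∈ range m, (2 : ℝ) ^ (-(r * s)) * min 1 (((2 : ℝ) ^ s * h) ^ l) ≤ C * h ^ r := by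
  have hδ : 0 < (l : ℝ) - r := by linarith
  have h2r : (2 : ℝ) ^ (-r) < 1 := Real.rpow_lt_one_of_one_lt_of_neg (by norm_num) (by linarith)
  have h2d : (1 : ℝ) < 2 ^ ((l : ℝ) - r) := Real.one_lt_rpow (by norm_num) hδ
  have hA : (0 : ℝ) < 1 / (1 - 2 ^ (-r)) := by
    apply one_div_pos.mpr; linarith
  have hB : (0 : ℝ) < 1 / (2 ^ ((l : ℝ) - r) - 1) := by
    apply one_div_pos.mpr; linarith
  refine ⟨1 / (1 - 2 ^ (-r)) + 1 + 1 / (2 ^ ((l : ℝ) - r) - 1), by positivity, ?_⟩
  intro m h hh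
  have hl0 : l ≠ 0 := by
    rintro rfl
    simp at hl; linarith
  rcases hh.eq_or_lt with rfl | hh
  · simp [hl0, hr.ne']
  · have h1 := geom_aux r ((l : ℝ) - r) hr hδ m h hh
    have h2 : (if 1 ≤ h then 1 / (1 - 2 ^ (-r)) else
        1 / (1 - 2 ^ (-r)) + 1 + 1 / (2 ^ ((l : ℝ) - r) - 1) * (1 - h ^ ((l : ℝ) - r))) ≤
        1 / (1 - 2 ^ (-r)) + 1 + 1 / (2 ^ ((l : ℝ) - r) - 1) := by
      split_ifs
      · linarith
      · have : (0 : ℝ) ≤ 1 / (2 ^ ((l : ℝ) - r) - 1) * h ^ ((l : ℝ) - r) := by positivity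
        linarith
    have h3 : ∑ s ∈ range m, (2 : ℝ) ^ (-(r * s)) * min 1 (((2 : ℝ) ^ s * h) ^ l) =
        (∑ s ∈ range m, min (((2 : ℝ) ^ s * h) ^ (-r)) (((2 : ℝ) ^ s * h) ^ ((l : ℝ) - r))) *
          h ^ r := by
      rw [Finset.sum_mul]
      apply Finset.sum_congr rfl
      intro s _
      have hs : (0 : ℝ) < 2 ^ s * h := by positivity
      have e1 : (2 : ℝ) ^ (-(r * s)) = ((2 : ℝ) ^ s * h) ^ (-r) * h ^ r := by
        rw [Real.mul_rpow (by positivity) hh.le, mul_assoc, ← Real.rpow_add hh]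
        simp only [neg_add_cancel, Real.rpow_zero, mul_one]
        rw [← Real.rpow_natCast, ← Real.rpow_mul (by norm_num)]
        ring_nf
      rw [e1, mul_right_comm, mul_min_of_nonneg _ _ (by positivity), mul_one, ← Real.rpow_natCast _ l,
        ← Real.rpow_add hs]
      ring_nf
    rw [h3]
    exact mul_le_mul_of_nonneg_right (h1.trans h2) (by positivity)

/-- the bound for one scale -/
lemma scale_le (r : ℝ) (l : ℕ) (hr : 0 < r) (hl : r < l) (s : ℕ) (h : ℝ) (hh : 0 ≤ h) :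
    (2 : ℝ) ^ (-(r * s)) * min 1 (((2 : ℝ) ^ s * h) ^ l) ≤ h ^ r := by
  have hl0 : l ≠ 0 := by
    rintro rfl
    simp at hl; linarith
  rcases hh.eq_or_lt with rfl | hh
  · simp [hl0, hr.ne']
  · have hs : (0 : ℝ) < 2 ^ s * h := by positivity
    have e1 : (2 : ℝ) ^ (-(r * s)) = ((2 : ℝ) ^ s * h) ^ (-r) * h ^ r := by
      rw [Real.mul_rpow (by positivity) hh.le, mul_assoc, ← Real.rpow_add hh]
      simp only [neg_add_cancel, Real.rpow_zero, mul_one]
      rw [← Real.rpow_natCast, ← Real.rpow_mul (by norm_num)]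
      ring_nf
    rw [e1, mul_right_comm]
    apply mul_le_of_le_one_left (by positivity)
    by_cases h1 : 1 ≤ (2 : ℝ) ^ s * h
    · calc ((2 : ℝ) ^ s * h) ^ (-r) * min 1 (((2 : ℝ) ^ s * h) ^ l)
          ≤ 1 * 1 := by
            apply mul_le_mul _ (min_le_left _ _) (by positivity) (by norm_num)
            exact Real.rpow_le_one_of_one_le_of_nonpos h1 (by linarith)
        _ = 1 := by norm_num
    · push Not at h1
      calc ((2 : ℝ) ^ s * h) ^ (-r) * min 1 (((2 : ℝ) ^ s * h) ^ l)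
          ≤ ((2 : ℝ) ^ s * h) ^ (-r) * (((2 : ℝ) ^ s * h) ^ l) := by
            apply mul_le_mul_of_nonneg_left (min_le_right _ _) (by positivity)
        _ = ((2 : ℝ) ^ s * h) ^ ((l : ℝ) - r) := by
            rw [← Real.rpow_natCast _ l, ← Real.rpow_add hs]; ring_nf
        _ ≤ 1 := Real.rpow_le_one hs.le h1.le (by linarith)

/-- iterated differences of a smooth function -/
lemma fwdDiff_bound (l : ℕ) : ∀ (g : ℝ → ℝ) (_ : ContDiff ℝ (⊤ : ℕ∞) g) (M : ℝ)
    (_ : ∀ x, |iteratedDeriv l g x| ≤ M) (t x : ℝ), |(fwdDiff t)^[l] g x| ≤ M * |t| ^ l := by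
  induction l with
  | zero =>
    intro g _ M hM t x
    simpa using hM x
  | succ l ih =>
    intro g hg M hM t x
    rw [Function.iterate_succ_apply]
    have h1 : ContDiff ℝ (⊤ : ℕ∞) (fwdDiff t g) := by
      have : fwdDiff t g = fun x => g (x + t) - g x := rfl
      rw [this]
      exact (hg.comp (contDiff_id.add contDiff_const)).sub hg
    have h2 : ∀ x, |iteratedDeriv l (fwdDiff t g) x| ≤ M * |t| := by
      intro x
      have e : iteratedDeriv l (fwdDiff t g) x = iteratedDeriv l g (x + t) - iteratedDeriv l g x := by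
        have : fwdDiff t g = (fun x => g (x + t)) - g := rfl
        rw [this]
        have e1 := congrFun (iteratedDeriv_comp_add_const l g t) x
        rw [iteratedDeriv_sub, e1]
        · exact ((hg.comp (contDiff_id.add contDiff_const)).of_le (by exact_mod_cast le_top)).contDiffAt
        · exact (hg.of_le (by exact_mod_cast le_top)).contDiffAt
      rw [e]
      have hd : Differentiable ℝ (iteratedDeriv l g) :=
        hg.differentiable_iteratedDeriv l (by exact_mod_cast WithTop.coe_lt_top _)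
      have := Convex.norm_image_sub_le_of_norm_deriv_le (f := iteratedDeriv l g) (C := M)
        (s := Set.univ) (x := x) (y := x + t) (fun y _ => hd y)
        (fun y _ => by
          rw [← iteratedDeriv_succ]; exact hM y) convex_univ (Set.mem_univ _) (Set.mem_univ _)
      simpa using this
    have h3 := ih (fwdDiff t g) h1 (M * |t|) h2 t x
    rw [pow_succ']
    calc _ ≤ _ := h3
      _ = _ := by ring

/-- derivatives of the building block are bounded -/
lemma u_bound (u : ℝ → ℝ) (hu : ContDiff ℝ (⊤ : ℕ∞) u)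
    (hsupp : ∀ t, (t ≤ 1 / 10 ∨ 9 / 10 ≤ t) → u t = 0) (l : ℕ) :
    ∃ M, 0 ≤ M ∧ ∀ t, |iteratedDeriv l u t| ≤ M := by
  have hc : Continuous (iteratedDeriv l u) :=
    hu.continuous_iteratedDeriv l (by exact_mod_cast le_top)
  obtain ⟨M, hM⟩ := (isCompact_Icc (a := (1 / 10 : ℝ)) (b := 9 / 10)).exists_bound_of_continuousOn
    hc.continuousOn
  refine ⟨max M 0, le_max_right _ _, fun t => ?_⟩
  by_cases ht : t ∈ Set.Icc (1 / 10 : ℝ) (9 / 10)
  · exact (hM t ht).trans (le_max_left _ _)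
  · have h0 : u =ᶠ[𝓝 t] (fun _ => 0) := by
      rw [Set.mem_Icc, not_and_or, not_le, not_le] at ht
      rcases ht with ht | ht
      · filter_upwards [Iio_mem_nhds ht] with y hy
        exact hsupp y (Or.inl (le_of_lt hy))
      · filter_upwards [Ioi_mem_nhds ht] with y hy
        exact hsupp y (Or.inr (le_of_lt hy))
    rw [h0.iteratedDeriv_eq l]
    have : iteratedDeriv l (fun _ : ℝ => (0 : ℝ)) t = 0 := by
      rw [iteratedDeriv_const]; split_ifs <;> rfl
    rw [this]; simp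

/-- local description of the periodised block -/
lemma ub_local (u : ℝ → ℝ) (hsupp : ∀ t, (t ≤ 1 / 10 ∨ 9 / 10 ≤ t) → u t = 0) {s c : ℕ}
    (hc : c < 2 ^ s) (x₀ : ℝ) :
    (∃ b : ℝ, ub u s c =ᶠ[𝓝 x₀] fun x => u ((2 : ℝ) ^ s / (2 * π) * x + b)) ∨
      ub u s c =ᶠ[𝓝 x₀] fun _ => 0 := by
  have hpi : (0 : ℝ) < 2 * π := by positivity
  have hcont : Filter.Tendsto (fun x : ℝ => x / (2 * π)) (𝓝 x₀) (𝓝 (x₀ / (2 * π))) :=
    (continuous_id.div_const _).tendsto _
  by_cases hf : Int.fract (x₀ / (2 * π)) = 0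
  · right
    -- near an integer
    set k : ℤ := ⌊x₀ / (2 * π)⌋ with hk
    have hk0 : x₀ / (2 * π) = k := by
      have := Int.floor_add_fract (x₀ / (2 * π))
      rw [hf, add_zero] at this
      exact this.symm
    have hs : (0 : ℝ) < 2 ^ s := by positivity
    have hc' : (c : ℝ) + 1 ≤ 2 ^ s := by exact_mod_cast hc
    have hnear : ∀ᶠ y in 𝓝 (x₀ / (2 * π)), y ∈ Set.Ioo ((k : ℝ) - 1 / (10 * 2 ^ s))
        ((k : ℝ) + 1 / (10 * 2 ^ s)) := by
      apply Ioo_mem_nhds
      · rw [hk0]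
        have : (0 : ℝ) < 1 / (10 * 2 ^ s) := by positivity
        linarith
      · rw [hk0]
        have : (0 : ℝ) < 1 / (10 * 2 ^ s) := by positivity
        linarith
    filter_upwards [hcont.eventually hnear] with x hx
    obtain ⟨h1, h2⟩ := hx
    have hs1 : (1 : ℝ) ≤ 2 ^ s := one_le_pow₀ (by norm_num)
    have hsm : (1 : ℝ) / (10 * 2 ^ s) ≤ 1 / 10 := by
      apply one_div_le_one_div_of_le (by norm_num)
      linarith
    have hm : (2 : ℝ) ^ s * (1 / (10 * 2 ^ s)) = 1 / 10 := by field_simp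
    unfold ub
    apply hsupp
    by_cases hge : (k : ℝ) ≤ x / (2 * π)
    · left
      have hfl : ⌊x / (2 * π)⌋ = k := by
        rw [Int.floor_eq_iff]
        exact ⟨hge, by linarith⟩
      rw [Int.fract, hfl]
      have : (2 : ℝ) ^ s * (x / (2 * π) - k) ≤ 2 ^ s * (1 / (10 * 2 ^ s)) :=
        mul_le_mul_of_nonneg_left (by linarith) hs.le
      have hc0 : (0 : ℝ) ≤ c := Nat.cast_nonneg c
      linarith
    · right
      push Not at hge
      have hfl : ⌊x / (2 * π)⌋ = k - 1 := by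
        rw [Int.floor_eq_iff]
        push_cast
        exact ⟨by linarith, by linarith⟩
      rw [Int.fract, hfl]
      push_cast
      have : (2 : ℝ) ^ s * (-(1 / (10 * 2 ^ s)) + 1) ≤ 2 ^ s * (x / (2 * π) - (k - 1)) :=
        mul_le_mul_of_nonneg_left (by linarith) hs.le
      rw [mul_add, mul_neg, hm] at this
      linarith
  · left
    set k : ℤ := ⌊x₀ / (2 * π)⌋ with hk
    refine ⟨-(2 ^ s * k) - c, ?_⟩
    have hpos : 0 < Int.fract (x₀ / (2 * π)) := lt_of_le_of_ne (Int.fract_nonneg _) (Ne.symm hf)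
    have hlt := Int.fract_lt_one (x₀ / (2 * π))
    rw [Int.fract] at hpos hlt
    have hnear : ∀ᶠ y in 𝓝 (x₀ / (2 * π)), y ∈ Set.Ioo (k : ℝ) ((k : ℝ) + 1) := by
      apply Ioo_mem_nhds
      · linarith
      · linarith
    filter_upwards [hcont.eventually hnear] with x hx
    obtain ⟨h1, h2⟩ := hx
    have hfl : ⌊x / (2 * π)⌋ = k := by
      rw [Int.floor_eq_iff]
      exact ⟨h1.le, h2⟩
    unfold ub
    rw [Int.fract, hfl]
    congr 1
    field_simp
    ring

lemma ub_contDiff (u : ℝ → ℝ) (hu : ContDiff ℝ (⊤ : ℕ∞) u)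
    (hsupp : ∀ t, (t ≤ 1 / 10 ∨ 9 / 10 ≤ t) → u t = 0) {s c : ℕ} (hc : c < 2 ^ s) :
    ContDiff ℝ (⊤ : ℕ∞) (ub u s c) := by
  rw [contDiff_iff_contDiffAt]
  intro x
  rcases ub_local u hsupp hc x with ⟨b, hb⟩ | hb
  · refine ContDiffAt.congr_of_eventuallyEq ?_ hb
    exact (hu.comp ((contDiff_const.mul contDiff_id).add contDiff_const)).contDiffAt
  · exact contDiffAt_const.congr_of_eventuallyEq hb

lemma iter_affine (u : ℝ → ℝ) (hu : ContDiff ℝ (⊤ : ℕ∞) u) (l : ℕ) (a b x : ℝ) :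
    iteratedDeriv l (fun x => u (a * x + b)) x = a ^ l * iteratedDeriv l u (a * x + b) := by
  have h1 : ContDiff ℝ l (fun z => u (z + b)) :=
    (hu.comp (contDiff_id.add contDiff_const)).of_le (by exact_mod_cast le_top)
  have h2 := congrFun (iteratedDeriv_comp_const_mul h1 a) x
  rw [h2, iteratedDeriv_comp_add_const]

lemma ub_bound (u : ℝ → ℝ) (hu : ContDiff ℝ (⊤ : ℕ∞) u)
    (hsupp : ∀ t, (t ≤ 1 / 10 ∨ 9 / 10 ≤ t) → u t = 0) (l : ℕ) :
    ∃ M, 0 ≤ M ∧ ∀ (s c : ℕ), c < 2 ^ s → ∀ x, |iteratedDeriv l (ub u s c) x| ≤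
      M * ((2 : ℝ) ^ s) ^ l := by
  obtain ⟨M, hM0, hM⟩ := u_bound u hu hsupp l
  refine ⟨M, hM0, fun s c hc x => ?_⟩
  rcases ub_local u hsupp hc x with ⟨b, hb⟩ | hb
  · rw [hb.iteratedDeriv_eq l, iter_affine u hu, abs_mul, mul_comm]
    apply mul_le_mul (hM _) _ (abs_nonneg _) hM0
    rw [abs_pow]
    apply pow_le_pow_left₀ (abs_nonneg _)
    rw [abs_of_pos (by positivity)]
    apply div_le_self (by positivity)
    have := Real.pi_gt_three
    linarith
  · rw [hb.iteratedDeriv_eq l]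
    have : iteratedDeriv l (fun _ : ℝ => (0 : ℝ)) x = 0 := by
      rw [iteratedDeriv_const]; split_ifs <;> rfl
    rw [this]; simp; positivity

/-- the one-variable difference -/
noncomputable def D1 (l : ℕ) (t : ℝ) (g : ℝ → ℝ) (x : ℝ) : ℝ :=
  ∑ ν ∈ range (l + 1), ((-1 : ℝ) ^ (l - ν) * (l.choose ν : ℝ)) * g (x + ν * t)

lemma D1_eq (l : ℕ) (t : ℝ) (g : ℝ → ℝ) (x : ℝ) : D1 l t g x = (fwdDiff t)^[l] g x := by
  rw [fwdDiff_iter_eq_sum_shift]
  unfold D1
  apply Finset.sum_congr rfl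
  intro ν _
  simp only [zsmul_eq_mul, nsmul_eq_mul]
  push_cast
  rfl

/-- only one block of each size is active at a point -/
lemma ub_zero (u : ℝ → ℝ) (hsupp : ∀ t, (t ≤ 1 / 10 ∨ 9 / 10 ≤ t) → u t = 0) (s c : ℕ) (x : ℝ)
    (hne : c ≠ ⌊(2 : ℝ) ^ s * Int.fract (x / (2 * π))⌋₊) : ub u s c x = 0 := by
  unfold ub
  apply hsupp
  have h0 : 0 ≤ (2 : ℝ) ^ s * Int.fract (x / (2 * π)) :=
    mul_nonneg (by positivity) (Int.fract_nonneg _)
  have h1 := Nat.floor_le h0
  have h2 := Nat.lt_floor_add_one ((2 : ℝ) ^ s * Int.fract (x / (2 * π)))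
  rcases Nat.lt_or_gt_of_ne hne with h | h
  · right
    have : (c : ℝ) + 1 ≤ ⌊(2 : ℝ) ^ s * Int.fract (x / (2 * π))⌋₊ := by exact_mod_cast h
    linarith
  · left
    have : (⌊(2 : ℝ) ^ s * Int.fract (x / (2 * π))⌋₊ : ℝ) + 1 ≤ c := by exact_mod_cast h
    linarith

lemma ub_sum_le (u : ℝ → ℝ) (hsupp : ∀ t, (t ≤ 1 / 10 ∨ 9 / 10 ≤ t) → u t = 0) (M : ℝ)
    (hM0 : 0 ≤ M) (hM : ∀ t, |u t| ≤ M) (s : ℕ) (x : ℝ) :
    ∑ c ∈ range (2 ^ s), |ub u s c x| ≤ M := by
  set c₀ := ⌊(2 : ℝ) ^ s * Int.fract (x / (2 * π))⌋₊ with hc₀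
  calc ∑ c ∈ range (2 ^ s), |ub u s c x|
      ≤ ∑ c ∈ range (2 ^ s), if c = c₀ then M else 0 := by
        apply Finset.sum_le_sum
        intro c _
        split_ifs with h
        · exact hM _
        · rw [ub_zero u hsupp s c x h, abs_zero]
    _ ≤ M := by
        rw [Finset.sum_ite_eq' (range (2 ^ s)) c₀ (fun _ => M)]
        split_ifs
        · exact le_rfl
        · exact hM0

lemma D1_sum_le (u : ℝ → ℝ) (hu : ContDiff ℝ (⊤ : ℕ∞) u)
    (hsupp : ∀ t, (t ≤ 1 / 10 ∨ 9 / 10 ≤ t) → u t = 0) (l : ℕ) :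
    ∃ C > 0, ∀ (s : ℕ) (t x : ℝ), ∑ c ∈ range (2 ^ s), |D1 l t (ub u s c) x| ≤
      C * min 1 (((2 : ℝ) ^ s * |t|) ^ l) := by
  obtain ⟨M₀, hM₀0, hM₀⟩ := u_bound u hu hsupp 0
  simp only [iteratedDeriv_zero] at hM₀
  obtain ⟨M, hM0, hM⟩ := ub_bound u hu hsupp l
  refine ⟨2 ^ l * M₀ + (l + 1) * M + 1, by positivity, fun s t x => ?_⟩
  rw [mul_min_of_nonneg _ _ (by positivity), mul_one]
  apply le_min
  · calc ∑ c ∈ range (2 ^ s), |D1 l t (ub u s c) x|
        ≤ ∑ c ∈ range (2 ^ s), ∑ ν ∈ range (l + 1), (l.choose ν : ℝ) * |ub u s c (x + ν * t)| := by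
          apply Finset.sum_le_sum
          intro c _
          unfold D1
          refine (Finset.abs_sum_le_sum_abs _ _).trans (le_of_eq ?_)
          apply Finset.sum_congr rfl
          intro ν _
          rw [abs_mul, abs_mul, abs_pow, abs_neg, abs_one, one_pow, one_mul, Nat.abs_cast]
      _ = ∑ ν ∈ range (l + 1), (l.choose ν : ℝ) * ∑ c ∈ range (2 ^ s), |ub u s c (x + ν * t)| := by
          rw [Finset.sum_comm]
          apply Finset.sum_congr rfl
          intro ν _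
          rw [Finset.mul_sum]
      _ ≤ ∑ ν ∈ range (l + 1), (l.choose ν : ℝ) * M₀ := by
          apply Finset.sum_le_sum
          intro ν _
          exact mul_le_mul_of_nonneg_left (ub_sum_le u hsupp M₀ hM₀0 hM₀ s _) (by positivity)
      _ = 2 ^ l * M₀ := by
          rw [← Finset.sum_mul]
          congr 1
          exact_mod_cast Nat.sum_range_choose l
      _ ≤ 2 ^ l * M₀ + (l + 1) * M + 1 := by
          have : 0 ≤ ((l : ℝ) + 1) * M := by positivity
          linarith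
  · set S : Finset ℕ := (range (l + 1)).image
      (fun ν : ℕ => ⌊(2 : ℝ) ^ s * Int.fract ((x + ν * t) / (2 * π))⌋₊) with hS
    have hScard : (S.card : ℝ) ≤ l + 1 := by
      have h1 := Finset.card_image_le (s := range (l + 1))
        (f := fun ν : ℕ => ⌊(2 : ℝ) ^ s * Int.fract ((x + ν * t) / (2 * π))⌋₊)
      rw [card_range, ← hS] at h1
      calc (S.card : ℝ) ≤ ((l + 1 : ℕ) : ℝ) := Nat.cast_le.mpr h1
        _ = l + 1 := by push_cast; ring
    calc ∑ c ∈ range (2 ^ s), |D1 l t (ub u s c) x|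
        ≤ ∑ c ∈ range (2 ^ s), if c ∈ S then M * ((2 : ℝ) ^ s) ^ l * |t| ^ l else 0 := by
          apply Finset.sum_le_sum
          intro c hc
          split_ifs with h
          · rw [D1_eq]
            exact fwdDiff_bound l (ub u s c) (ub_contDiff u hu hsupp (mem_range.mp hc)) _
              (hM s c (mem_range.mp hc)) t x
          · rw [abs_nonpos_iff]
            unfold D1
            apply Finset.sum_eq_zero
            intro ν hν
            rw [ub_zero u hsupp s c, mul_zero]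
            rintro rfl
            exact h (mem_image_of_mem _ hν)
      _ = ∑ c ∈ (range (2 ^ s)).filter (· ∈ S), M * ((2 : ℝ) ^ s) ^ l * |t| ^ l := by
          rw [Finset.sum_filter]
      _ ≤ ∑ c ∈ S, M * ((2 : ℝ) ^ s) ^ l * |t| ^ l := by
          apply Finset.sum_le_sum_of_subset_of_nonneg
          · intro c hc
            exact (Finset.mem_filter.mp hc).2
          · intro _ _ _
            positivity
      _ = S.card * (M * (((2 : ℝ) ^ s) * |t|) ^ l) := by
          rw [Finset.sum_const, nsmul_eq_mul, mul_pow]; ring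
      _ ≤ (l + 1) * (M * (((2 : ℝ) ^ s) * |t|) ^ l) :=
          mul_le_mul_of_nonneg_right hScard (by positivity)
      _ ≤ (2 ^ l * M₀ + (l + 1) * M + 1) * (((2 : ℝ) ^ s) * |t|) ^ l := by
          rw [← mul_assoc]
          apply mul_le_mul_of_nonneg_right _ (by positivity)
          have : 0 ≤ (2 : ℝ) ^ l * M₀ := by positivity
          linarith

/-- the mixed difference of a tensor product -/
lemma mixedDiff_prod {d : ℕ} (l : ℕ) (E : Finset (Fin d)) (t : Fin d → ℝ) (g : Fin d → ℝ → ℝ)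
    (x : Fin d → ℝ) :
    mixedDiff (𝕜 := ℝ) l E t (fun x => ∏ j, g j (x j)) x =
      ∏ j, if j ∈ E then D1 l (t j) (g j) (x j) else g j (x j) := by
  unfold mixedDiff
  have h1 : ∀ ν : Fin d → ℕ,
      (∏ j ∈ E, (-1 : ℝ) ^ (l - ν j) * (l.choose (ν j) : ℝ)) * (∏ j, g j (x j + ν j * t j)) =
      ∏ j, ((if j ∈ E then (-1 : ℝ) ^ (l - ν j) * (l.choose (ν j) : ℝ) else 1) *
        g j (x j + ν j * t j)) := by
    intro ν
    rw [Finset.prod_mul_distrib (s := univ), Finset.prod_ite_mem univ E, Finset.univ_inter]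
  simp only [h1]
  rw [← Finset.prod_univ_sum (fun j => if j ∈ E then range (l + 1) else {0})
    (fun j ν => (if j ∈ E then (-1 : ℝ) ^ (l - ν) * (l.choose ν : ℝ) else 1) *
        g j (x j + ν * t j))]
  apply Finset.prod_congr rfl
  intro j _
  split_ifs with h
  · rfl
  · simp

lemma mixedDiff_sum {d : ℕ} {ι : Type*} [Fintype ι] (l : ℕ) (E : Finset (Fin d)) (t : Fin d → ℝ)
    (a : ι → ℝ) (F : ι → (Fin d → ℝ) → ℝ) (x : Fin d → ℝ) (K : ℝ) :
    mixedDiff (𝕜 := ℝ) l E t (fun x => K * ∑ i, a i * F i x) x =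
      K * ∑ i, a i * mixedDiff (𝕜 := ℝ) l E t (F i) x := by
  unfold mixedDiff
  simp only [Finset.mul_sum]
  rw [Finset.sum_comm]
  apply Finset.sum_congr rfl
  intro i _
  apply Finset.sum_congr rfl
  intro ν _
  ring

lemma mixedDiff_coe {d : ℕ} {𝕜 : Type} [RCLike 𝕜] (l : ℕ) (E : Finset (Fin d)) (t : Fin d → ℝ)
    (F : (Fin d → ℝ) → ℝ) (x : Fin d → ℝ) :
    mixedDiff (𝕜 := 𝕜) l E t (fun x => ((F x : ℝ) : 𝕜)) x =
      ((mixedDiff (𝕜 := ℝ) l E t F x : ℝ) : 𝕜) := by
  unfold mixedDiff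
  push_cast
  rfl

lemma shp_castSucc {e m : ℕ} (t : Fin (e + 1) → Fin m) (j : Fin (e + 1)) :
    shp e m t j.castSucc = t j := by
  simp [shp]

lemma shp_last {e m : ℕ} (t : Fin (e + 1) → Fin m) :
    shp e m t (Fin.last (e + 1)) = (e + 2) * m - ∑ j, (t j : ℕ) := by
  simp [shp]

lemma shp_sum {e m : ℕ} (t : Fin (e + 1) → Fin m) : ∑ j, shp e m t j = (e + 2) * m := by
  rw [Fin.sum_univ_castSucc, shp_last]
  simp only [shp_castSucc]
  have : ∑ j, (t j : ℕ) ≤ (e + 2) * m := by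
    calc ∑ j, (t j : ℕ) ≤ ∑ j : Fin (e + 1), m := Finset.sum_le_sum (fun j _ => (t j).2.le)
      _ = (e + 1) * m := by simp
      _ ≤ (e + 2) * m := Nat.mul_le_mul_right _ (by omega)
  omega

lemma pow_split {e m : ℕ} (r : ℝ) (t : Fin (e + 1) → Fin m) :
    (2 : ℝ) ^ (-(r * ((e + 2) * m))) = ∏ j, (2 : ℝ) ^ (-(r * (shp e m t j : ℕ))) := by
  rw [← Real.rpow_sum_of_pos (by norm_num)]
  congr 1
  rw [Finset.sum_neg_distrib, ← Finset.mul_sum]
  have := shp_sum t
  have h2 : (∑ j, ((shp e m t j : ℕ) : ℝ)) = (e + 2) * m := by exact_mod_cast this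
  rw [h2]

/-- sum over shapes -/
lemma shape_sum {e m : ℕ} (B : Fin (e + 2) → ℕ → ℝ) (h : Fin (e + 2) → ℝ) (hB : ∀ j s, 0 ≤ B j s)
    (hh : ∀ j, 0 ≤ h j) (h1 : ∀ j, ∑ s ∈ range m, B j s ≤ h j) (h2 : ∀ j s, B j s ≤ h j) :
    ∑ t : Fin (e + 1) → Fin m, ∏ j, B j (shp e m t j) ≤ ∏ j, h j := by
  calc ∑ t : Fin (e + 1) → Fin m, ∏ j, B j (shp e m t j)
      ≤ ∑ t : Fin (e + 1) → Fin m, (∏ j : Fin (e + 1), B j.castSucc (t j)) *
          h (Fin.last (e + 1)) := by
        apply Finset.sum_le_sum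
        intro t _
        rw [Fin.prod_univ_castSucc]
        simp only [shp_castSucc]
        exact mul_le_mul_of_nonneg_left (h2 _ _) (Finset.prod_nonneg fun _ _ => hB _ _)
    _ = (∏ j : Fin (e + 1), ∑ s : Fin m, B j.castSucc s) * h (Fin.last (e + 1)) := by
        rw [← Finset.sum_mul, Finset.prod_univ_sum]
        simp only [Fintype.piFinset_univ]
    _ ≤ (∏ j : Fin (e + 1), h j.castSucc) * h (Fin.last (e + 1)) := by
        apply mul_le_mul_of_nonneg_right _ (hh _)
        apply Finset.prod_le_prod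
        · intro j _
          exact Finset.sum_nonneg fun _ _ => hB _ _
        · intro j _
          rw [Fin.sum_univ_eq_sum_range (fun s => B j.castSucc s)]
          exact h1 _
    _ = ∏ j, h j := (Fin.prod_univ_castSucc h).symm

/-- the key pointwise bound -/
lemma key_bound (e : ℕ) (u : ℝ → ℝ) (hu : ContDiff ℝ (⊤ : ℕ∞) u)
    (hsupp : ∀ t, (t ≤ 1 / 10 ∨ 9 / 10 ≤ t) → u t = 0) (r : ℝ) (hr : 0 < r) (l : ℕ) (hl : r < l) :
    ∃ K > 0, ∀ (m : ℕ) (a : Box e m → ℝ) (_ : ∀ R, |a R| ≤ 1) (E : Finset (Fin (e + 2)))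
      (t x : Fin (e + 2) → ℝ),
      |K * (2 : ℝ) ^ (-(r * ((e + 2) * m))) * ∑ R, a R *
        ∏ j, (if j ∈ E then D1 l (t j) (ub u (shp e m R.1 j) (R.2 j)) (x j) else
          ub u (shp e m R.1 j) (R.2 j) (x j))| ≤ ∏ j ∈ E, |t j| ^ r := by
  obtain ⟨M₀, hM₀0, hM₀⟩ := u_bound u hu hsupp 0
  simp only [iteratedDeriv_zero] at hM₀
  obtain ⟨C1, hC1, hD⟩ := D1_sum_le u hu hsupp l
  obtain ⟨C2, hC2, hG⟩ := geom_sum_le r hr l hl
  have h2r : (2 : ℝ) ^ (-r) < 1 := Real.rpow_lt_one_of_one_lt_of_neg (by norm_num) (by linarith)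
  have h2r0 : (0 : ℝ) < 2 ^ (-r) := by positivity
  set C3 : ℝ := 1 / (1 - 2 ^ (-r)) with hC3
  have hC3p : 0 < C3 := by apply one_div_pos.mpr; linarith
  have hgeo : ∀ m : ℕ, ∑ s ∈ range m, (2 : ℝ) ^ (-(r * s)) ≤ C3 := by
    intro m
    calc ∑ s ∈ range m, (2 : ℝ) ^ (-(r * s)) = ∑ s ∈ range m, ((2 : ℝ) ^ (-r)) ^ s := by
          apply Finset.sum_congr rfl
          intro s _
          rw [← Real.rpow_natCast ((2 : ℝ) ^ (-r)), ← Real.rpow_mul (by norm_num)]
          ring_nf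
      _ ≤ C3 := by
          rw [geom_sum_eq (ne_of_lt h2r)]
          rw [← neg_div_neg_eq, neg_sub, neg_sub, hC3]
          apply div_le_div_of_nonneg_right _ (by linarith)
          have : (0 : ℝ) ≤ ((2 : ℝ) ^ (-r)) ^ m := by positivity
          linarith
  set C : ℝ := C1 * C2 + C1 + M₀ * C3 + M₀ + 1 with hC
  have hCp : 0 < C := by positivity
  refine ⟨(1 / C) ^ (e + 2), by positivity, ?_⟩
  intro m a ha E t x
  set A : Fin (e + 2) → ℕ → ℕ → ℝ := fun j s c =>
    if j ∈ E then D1 l (t j) (ub u s c) (x j) else ub u s c (x j) with hA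
  set B : Fin (e + 2) → ℕ → ℝ := fun j s =>
    (2 : ℝ) ^ (-(r * s)) * ∑ c ∈ range (2 ^ s), |A j s c| with hB
  set h : Fin (e + 2) → ℝ := fun j => C * (if j ∈ E then |t j| ^ r else 1) with hh
  have hB0 : ∀ j s, 0 ≤ B j s := by
    intro j s
    apply mul_nonneg (by positivity)
    exact Finset.sum_nonneg fun _ _ => abs_nonneg _
  have hh0 : ∀ j, 0 ≤ h j := by
    intro j
    apply mul_nonneg hCp.le
    split_ifs <;> positivity
  have hsum : ∀ j s, j ∈ E → B j s ≤ C1 * ((2 : ℝ) ^ (-(r * s)) * min 1 (((2 : ℝ) ^ s * |t j|) ^ l)) := by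
    intro j s hj
    have := hD s (t j) (x j)
    simp only [hB, hA, hj, if_true]
    calc _ ≤ (2 : ℝ) ^ (-(r * s)) * (C1 * min 1 (((2 : ℝ) ^ s * |t j|) ^ l)) :=
          mul_le_mul_of_nonneg_left this (by positivity)
      _ = _ := by ring
  have hsum' : ∀ j s, j ∉ E → B j s ≤ M₀ * (2 : ℝ) ^ (-(r * s)) := by
    intro j s hj
    have := ub_sum_le u hsupp M₀ hM₀0 hM₀ s (x j)
    simp only [hB, hA, hj, if_false]
    calc _ ≤ (2 : ℝ) ^ (-(r * s)) * M₀ :=
          mul_le_mul_of_nonneg_left this (by positivity)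
      _ = _ := by ring
  have h1 : ∀ j, ∑ s ∈ range m, B j s ≤ h j := by
    intro j
    by_cases hj : j ∈ E
    · calc ∑ s ∈ range m, B j s
          ≤ ∑ s ∈ range m, C1 * ((2 : ℝ) ^ (-(r * s)) * min 1 (((2 : ℝ) ^ s * |t j|) ^ l)) :=
            Finset.sum_le_sum fun s _ => hsum j s hj
        _ = C1 * ∑ s ∈ range m, ((2 : ℝ) ^ (-(r * s)) * min 1 (((2 : ℝ) ^ s * |t j|) ^ l)) := by
            rw [Finset.mul_sum]
        _ ≤ C1 * (C2 * |t j| ^ r) := mul_le_mul_of_nonneg_left (hG m _ (abs_nonneg _)) hC1.le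
        _ ≤ h j := by
            simp only [hh, hj, if_true]
            rw [← mul_assoc]
            apply mul_le_mul_of_nonneg_right _ (by positivity)
            have : 0 ≤ M₀ * C3 := by positivity
            rw [hC]; linarith
    · calc ∑ s ∈ range m, B j s
          ≤ ∑ s ∈ range m, M₀ * (2 : ℝ) ^ (-(r * s)) :=
            Finset.sum_le_sum fun s _ => hsum' j s hj
        _ = M₀ * ∑ s ∈ range m, (2 : ℝ) ^ (-(r * s)) := by rw [Finset.mul_sum]
        _ ≤ M₀ * C3 := mul_le_mul_of_nonneg_left (hgeo m) hM₀0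
        _ ≤ h j := by
            simp only [hh, hj, if_false, mul_one]
            have : 0 ≤ C1 * C2 := by positivity
            rw [hC]; linarith
  have h2 : ∀ j s, B j s ≤ h j := by
    intro j s
    by_cases hj : j ∈ E
    · calc B j s ≤ C1 * ((2 : ℝ) ^ (-(r * s)) * min 1 (((2 : ℝ) ^ s * |t j|) ^ l)) := hsum j s hj
        _ ≤ C1 * |t j| ^ r :=
            mul_le_mul_of_nonneg_left (scale_le r l hr hl s _ (abs_nonneg _)) hC1.le
        _ ≤ h j := by
            simp only [hh, hj, if_true]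
            apply mul_le_mul_of_nonneg_right _ (by positivity)
            have : 0 ≤ M₀ * C3 := by positivity
            have : 0 ≤ C1 * C2 := by positivity
            rw [hC]; linarith
    · calc B j s ≤ M₀ * (2 : ℝ) ^ (-(r * s)) := hsum' j s hj
        _ ≤ M₀ * 1 := by
            apply mul_le_mul_of_nonneg_left _ hM₀0
            apply Real.rpow_le_one_of_one_le_of_nonpos (by norm_num)
            have : 0 ≤ r * (s : ℝ) := by positivity
            linarith
        _ ≤ h j := by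
            simp only [hh, hj, if_false, mul_one]
            have : 0 ≤ M₀ * C3 := by positivity
            have : 0 ≤ C1 * C2 := by positivity
            rw [hC]; linarith
  have h3 := shape_sum (m := m) B h hB0 hh0 h1 h2
  have h4 : (2 : ℝ) ^ (-(r * ((e + 2) * m))) * |∑ R : Box e m, a R *
      ∏ j, A j (shp e m R.1 j) (R.2 j)| ≤ ∑ t : Fin (e + 1) → Fin m, ∏ j, B j (shp e m t j) := by
    calc (2 : ℝ) ^ (-(r * ((e + 2) * m))) * |∑ R : Box e m, a R * ∏ j, A j (shp e m R.1 j) (R.2 j)|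
        ≤ (2 : ℝ) ^ (-(r * ((e + 2) * m))) *
          ∑ R : Box e m, ∏ j, |A j (shp e m R.1 j) (R.2 j)| := by
          apply mul_le_mul_of_nonneg_left _ (by positivity)
          refine (Finset.abs_sum_le_sum_abs _ _).trans ?_
          apply Finset.sum_le_sum
          intro R _
          rw [abs_mul, Finset.abs_prod]
          exact mul_le_of_le_one_left (Finset.prod_nonneg fun _ _ => abs_nonneg _) (ha R)
      _ = (2 : ℝ) ^ (-(r * ((e + 2) * m))) *
          ∑ t : Fin (e + 1) → Fin m, ∏ j, ∑ c ∈ range (2 ^ shp e m t j),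
            |A j (shp e m t j) c| := by
          congr 1
          rw [Fintype.sum_sigma]
          apply Finset.sum_congr rfl
          intro t _
          have e1 : ∀ j, ∑ c ∈ range (2 ^ shp e m t j), |A j (shp e m t j) c| =
              ∑ c : Fin (2 ^ shp e m t j), |A j (shp e m t j) c| := by
            intro j
            rw [Fin.sum_univ_eq_sum_range (fun c => |A j (shp e m t j) c|)]
          simp only [e1]
          rw [Finset.prod_univ_sum]
          simp only [Fintype.piFinset_univ]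
      _ = ∑ t : Fin (e + 1) → Fin m, ∏ j, B j (shp e m t j) := by
          rw [Finset.mul_sum]
          apply Finset.sum_congr rfl
          intro t _
          rw [pow_split r t, ← Finset.prod_mul_distrib]
  rw [abs_mul, abs_mul, abs_of_pos (show (0 : ℝ) < (1 / C) ^ (e + 2) by positivity),
    abs_of_pos (show (0 : ℝ) < (2 : ℝ) ^ (-(r * ((e + 2) * m))) by positivity), mul_assoc]
  calc (1 / C) ^ (e + 2) * ((2 : ℝ) ^ (-(r * ((e + 2) * m))) * |∑ R : Box e m, a R *
      ∏ j, A j (shp e m R.1 j) (R.2 j)|) ≤ (1 / C) ^ (e + 2) * ∏ j, h j :=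
        mul_le_mul_of_nonneg_left (h4.trans h3) (by positivity)
    _ = ∏ j ∈ E, |t j| ^ r := by
        simp only [hh]
        rw [Finset.prod_mul_distrib, Finset.prod_ite_mem univ E, Finset.univ_inter,
          Finset.prod_const, Finset.card_univ, Fintype.card_fin, ← mul_assoc, ← mul_pow]
        rw [one_div_mul_cancel hCp.ne', one_pow, one_mul]

lemma ub_periodic (u : ℝ → ℝ) (s c : ℕ) (x : ℝ) : ub u s c (x + 2 * π) = ub u s c x := by
  unfold ub
  have : (x + 2 * π) / (2 * π) = x / (2 * π) + 1 := by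
    have : (2 * π) ≠ 0 := by positivity
    field_simp
  rw [this, Int.fract_add_one]

theorem mem_H (e : ℕ) (u : ℝ → ℝ) (hu : ContDiff ℝ (⊤ : ℕ∞) u)
    (hsupp : ∀ t, (t ≤ 1 / 10 ∨ 9 / 10 ≤ t) → u t = 0) (r : ℝ) (hr : 0 < r)
    (p : ℝ≥0∞) (𝕜 : Type) [RCLike 𝕜] :
    ∃ K > 0, ∀ m : ℕ, 0 < m → ∀ β : Box e m → Bool,
      (fun x => ((K * (2 : ℝ) ^ (-(r * ((e + 2) * m))) * ∑ R, sg (β R) * bxp u R x : ℝ) : 𝕜)) ∈
        Hclass (e + 2) 𝕜 r p := by
  have hl : r < ((⌊r⌋₊ + 1 : ℕ) : ℝ) := by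
    push_cast
    exact Nat.lt_floor_add_one r
  obtain ⟨K, hK, hb⟩ := key_bound e u hu hsupp r hr (⌊r⌋₊ + 1) hl
  refine ⟨K, hK, fun m _ β => ?_⟩
  have habs : ∀ R : Box e m, |sg (β R)| ≤ 1 := fun R => (abs_sg _).le
  have hcontR : ∀ R : Box e m, Continuous (bxp u R) := by
    intro R
    unfold bxp
    apply continuous_finsetProd
    intro j _
    exact (ub_contDiff u hu hsupp (R.2 j).2).continuous.comp (continuous_apply j)
  have hcont : Continuous (fun x : Fin (e + 2) → ℝ =>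
      ((K * (2 : ℝ) ^ (-(r * ((e + 2) * m))) * ∑ R, sg (β R) * bxp u R x : ℝ) : 𝕜)) := by
    apply RCLike.continuous_ofReal.comp
    apply continuous_const.mul
    apply continuous_finsetSum
    intro R _
    exact continuous_const.mul (hcontR R)
  refine ⟨hcont.measurable, ?_, ?_, ?_⟩
  · intro x j
    have : ∀ R : Box e m, bxp u R (Function.update x j (x j + 2 * π)) = bxp u R x := by
      intro R
      unfold bxp
      apply Finset.prod_congr rfl
      intro i _
      by_cases hij : i = j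
      · subst hij
        rw [Function.update_self, ub_periodic]
      · rw [Function.update_of_ne hij]
    simp only [this]
  · have h0 := eLpNorm_le_of_ae_bound (p := p) (μ := tor (e + 2)) (C := 1)
      (f := (fun x : Fin (e + 2) → ℝ =>
        ((K * (2 : ℝ) ^ (-(r * ((e + 2) * m))) * ∑ R, sg (β R) * bxp u R x : ℝ) : 𝕜)))
      (Filter.Eventually.of_forall fun x => by
        rw [RCLike.norm_ofReal]
        have := hb m (fun R => sg (β R)) habs ∅ (fun _ => 0) x
        simpa [bxp] using this)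
    simpa using h0
  · intro E t _
    have h0 := eLpNorm_le_of_ae_bound (p := p) (μ := tor (e + 2)) (C := ∏ j ∈ E, |t j| ^ r)
      (f := mixedDiff (⌊r⌋₊ + 1) E t (fun x : Fin (e + 2) → ℝ =>
        ((K * (2 : ℝ) ^ (-(r * ((e + 2) * m))) * ∑ R, sg (β R) * bxp u R x : ℝ) : 𝕜)))
      (Filter.Eventually.of_forall fun x => by
        rw [mixedDiff_coe, RCLike.norm_ofReal, mixedDiff_sum]
        have := hb m (fun R => sg (β R)) habs E t x
        refine le_trans (le_of_eq ?_) this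
        congr 2
        apply Finset.sum_congr rfl
        intro R _
        congr 1
        exact mixedDiff_prod _ E t (fun j => ub u (shp e m R.1 j) (R.2 j)) x)
    simpa using h0

end Pool.Agent.Helper42.SB
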