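import Pool.Agent.Helper60.SB.Defs3
import Pool.Agent.Helper42.SB.H1

/-!
Module U13: Fourier coefficients of functions of the class `H^r_p`.
-/

open Finset MeasureTheory
open scoped ENNReal Real Topology

namespace Pool.Agent.Helper42.SB

open Pool.Agent.Helper60.SB

instance fact_two_pi : Fact (0 < 2 * π) := ⟨by positivity⟩

/-- the representative of a point of the circle in `[0, 2π)` -/
noncomputable def gco (y : AddCircle (2 * π)) : ℝ := (AddCircle.equivIco (2 * π) 0 y : ℝ)

lemma measurable_gco : Measurable gco :=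
  measurable_subtype_coe.comp (AddCircle.measurableEquivIco (2 * π) 0).measurable

lemma coe_gco (y : AddCircle (2 * π)) : ((gco y : ℝ) : AddCircle (2 * π)) = y :=
  (AddCircle.equivIco (2 * π) 0).symm_apply_apply y

lemma gco_coe {x : ℝ} (hx : x ∈ Set.Ico 0 (2 * π)) : gco (x : AddCircle (2 * π)) = x := by
  have h : x ∈ Set.Ico 0 (0 + 2 * π) := by simpa using hx
  unfold gco
  rw [AddCircle.equivIco_coe_eq h]

lemma mp_mk : MeasurePreserving ((↑) : ℝ → AddCircle (2 * π))
    (volume.restrict (Set.Ico 0 (2 * π))) volume := by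
  have h := AddCircle.measurePreserving_mk (2 * π) 0
  rw [zero_add] at h
  have e : (volume : Measure ℝ).restrict (Set.Ioc 0 (2 * π)) =
      volume.restrict (Set.Ico 0 (2 * π)) :=
    Measure.restrict_congr_set Ico_ae_eq_Ioc.symm
  rwa [e] at h

lemma mp_gco : MeasurePreserving gco volume (volume.restrict (Set.Ico 0 (2 * π))) := by
  refine ⟨measurable_gco, ?_⟩
  rw [← mp_mk.map_eq, Measure.map_map measurable_gco mp_mk.measurable]
  have : gco ∘ ((↑) : ℝ → AddCircle (2 * π)) =ᵐ[volume.restrict (Set.Ico 0 (2 * π))] id := by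
    rw [Filter.EventuallyEq, ae_restrict_iff' measurableSet_Ico]
    exact Filter.Eventually.of_forall fun x hx => gco_coe hx
  rw [Measure.map_congr this, Measure.map_id]

/-- translation by `a` modulo `2π` -/
noncomputable def tr1 (a x : ℝ) : ℝ := gco ((x : AddCircle (2 * π)) + (a : AddCircle (2 * π)))

lemma tr1_eq (a x : ℝ) : ∃ n : ℤ, tr1 a x = x + a + n * (2 * π) := by
  have h := coe_gco ((x : AddCircle (2 * π)) + (a : AddCircle (2 * π)))
  rw [← AddCircle.coe_add] at h
  have h2 : ((tr1 a x - (x + a) : ℝ) : AddCircle (2 * π)) = 0 := by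
    rw [AddCircle.coe_sub, sub_eq_zero]; exact h
  rw [AddCircle.coe_eq_zero_iff] at h2
  obtain ⟨n, hn⟩ := h2
  refine ⟨n, ?_⟩
  rw [zsmul_eq_mul] at hn
  linarith

lemma mp_tr1 (a : ℝ) : MeasurePreserving (tr1 a) tor1 tor1 := by
  unfold tor1
  apply MeasurePreserving.smul_measure
  have h1 : MeasurePreserving (fun y : AddCircle (2 * π) => y + (a : AddCircle (2 * π)))
      volume volume := measurePreserving_add_right _ _
  exact mp_gco.comp (h1.comp mp_mk)

/-- translation on the torus -/
noncomputable def tr {d : ℕ} (a x : Fin d → ℝ) : Fin d → ℝ := fun j => tr1 (a j) (x j)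

lemma mp_tr {d : ℕ} (a : Fin d → ℝ) : MeasurePreserving (tr a) (tor d) (tor d) := by
  unfold tor
  exact measurePreserving_pi (fun _ => tor1) (fun _ => tor1) (fun j => mp_tr1 (a j))

/-- periodic functions -/
def Per {d : ℕ} {E : Type*} (F : (Fin d → ℝ) → E) : Prop :=
  ∀ x j, F (Function.update x j (x j + 2 * π)) = F x

lemma Per.zsmul {d : ℕ} {E : Type*} {F : (Fin d → ℝ) → E} (hF : Per F) (x : Fin d → ℝ)
    (j : Fin d) (n : ℤ) : F (Function.update x j (x j + n * (2 * π))) = F x := by
  induction n with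
  | zero => simp
  | succ n ih =>
    have h := hF (Function.update x j (x j + n * (2 * π))) j
    rw [Function.update_self, Function.update_idem] at h
    push_cast at ih ⊢
    rw [show x j + ((n : ℝ) + 1) * (2 * π) = x j + n * (2 * π) + 2 * π by ring, h, ih]
  | pred n ih =>
    have h := hF (Function.update x j (x j + ((-n - 1 : ℤ) : ℝ) * (2 * π))) j
    rw [Function.update_self, Function.update_idem] at h
    rw [← h]
    push_cast at ih ⊢
    rw [show x j + (-(n : ℝ) - 1) * (2 * π) + 2 * π = x j + -n * (2 * π) by ring, ih]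

lemma Per.zsmul_fun {d : ℕ} {E : Type*} {F : (Fin d → ℝ) → E} (hF : Per F) (n : Fin d → ℤ)
    (x : Fin d → ℝ) : F (fun j => x j + n j * (2 * π)) = F x := by
  have key : ∀ s : Finset (Fin d), F (fun j => x j + (if j ∈ s then (n j : ℝ) else 0) * (2 * π)) =
      F x := by
    intro s
    induction s using Finset.induction_on with
    | empty => simp
    | insert i s hi ih =>
      rw [← ih]
      have h := hF.zsmul (fun j => x j + (if j ∈ s then (n j : ℝ) else 0) * (2 * π)) i (n i)
      rw [← h]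
      congr 1
      ext j
      by_cases hj : j = i
      · subst hj
        simp [hi]
      · simp [hj]
  have := key univ
  simpa using this

lemma Per.tr {d : ℕ} {E : Type*} {F : (Fin d → ℝ) → E} (hF : Per F) (a x : Fin d → ℝ) :
    F (tr a x) = F (x + a) := by
  choose n hn using fun j => tr1_eq (a j) (x j)
  rw [← hF.zsmul_fun n (x + a)]
  congr 1
  ext j
  exact hn j

lemma integral_translate {d : ℕ} {F : (Fin d → ℝ) → ℂ} (hF : Per F) (hm : Measurable F)
    (a : Fin d → ℝ) : ∫ x, F (x + a) ∂(tor d) = ∫ x, F x ∂(tor d) := by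
  have h := mp_tr a
  calc ∫ x, F (x + a) ∂(tor d) = ∫ x, F (tr a x) ∂(tor d) := by
        simp only [hF.tr]
    _ = ∫ x, F x ∂(Measure.map (tr a) (tor d)) := by
        rw [integral_map h.measurable.aemeasurable hm.aestronglyMeasurable]
    _ = _ := by rw [h.map_eq]

lemma integrable_translate {d : ℕ} {F : (Fin d → ℝ) → ℂ} (hF : Per F)
    (hi : Integrable F (tor d)) (a : Fin d → ℝ) :
    Integrable (fun x => F (x + a)) (tor d) := by
  have h := (mp_tr a).integrable_comp_of_integrable hi
  refine h.congr (Filter.Eventually.of_forall fun x => ?_)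
  exact hF.tr a x

lemma measurable_ex {d : ℕ} (k : Fin d → ℤ) : Measurable (ex k) := by
  unfold ex
  apply Complex.measurable_exp.comp
  apply Measurable.const_mul
  apply Finset.measurable_sum
  intro j _
  apply Measurable.const_mul
  exact Complex.measurable_ofReal.comp (measurable_pi_apply j)

lemma ex_add {d : ℕ} (k : Fin d → ℤ) (x y : Fin d → ℝ) : ex k (x + y) = ex k x * ex k y := by
  unfold ex
  rw [← Complex.exp_add, ← mul_add, ← Finset.sum_add_distrib]
  congr 2
  apply Finset.sum_congr rfl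
  intro j _
  rw [Pi.add_apply]; push_cast; ring

lemma ex_neg_mul {d : ℕ} (k : Fin d → ℤ) (x : Fin d → ℝ) : ex (-k) x * ex k x = 1 := by
  unfold ex
  rw [← Complex.exp_add, ← mul_add, ← Finset.sum_add_distrib]
  simp

lemma per_ex {d : ℕ} (k : Fin d → ℤ) : Per (ex k) := by
  intro x j
  have e : Function.update x j (x j + 2 * π) = x + Pi.single j (2 * π) := by
    ext i
    by_cases h : i = j
    · subst h; simp
    · simp [h]
  rw [e, ex_add]
  have : ex k (Pi.single j (2 * π)) = 1 := by
    unfold ex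
    rw [Complex.exp_eq_one_iff]
    refine ⟨k j, ?_⟩
    rw [Finset.sum_eq_single j]
    · simp; ring
    · intro i _ hi
      simp [hi]
    · simp
  rw [this, mul_one]

lemma fc_translate {d : ℕ} {f : (Fin d → ℝ) → ℂ} (hf : Per f) (hm : Measurable f)
    (k : Fin d → ℤ) (a : Fin d → ℝ) :
    ∫ x, f (x + a) * ex (-k) x ∂(tor d) = ex k a * fc f k := by
  have h := integral_translate (F := fun x => f x * ex (-k) x)
    (fun x j => by
      show f _ * ex (-k) _ = f x * ex (-k) x
      rw [hf x j, per_ex (-k) x j]) (hm.mul (measurable_ex _)) a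
  unfold fc
  rw [← h, ← integral_const_mul]
  congr 1
  ext x
  rw [ex_add]
  have := ex_neg_mul k a
  linear_combination (- f (x + a) * ex (-k) x) * this

lemma integrable_mul_ex {d : ℕ} {f : (Fin d → ℝ) → ℂ} (hi : Integrable f (tor d))
    (k : Fin d → ℤ) : Integrable (fun x => f x * ex k x) (tor d) := by
  refine hi.mul_bdd (c := 1) (measurable_ex k).aestronglyMeasurable ?_
  exact Filter.Eventually.of_forall fun x => (norm_ex k x).le

lemma fc_mixedDiff {d : ℕ} {f : (Fin d → ℝ) → ℂ} (hf : Per f) (hm : Measurable f)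
    (hi : Integrable f (tor d)) (l : ℕ) (e : Finset (Fin d)) (t : Fin d → ℝ) (k : Fin d → ℤ) :
    fc (mixedDiff l e t f) k =
      (∏ j ∈ e, (Complex.exp (((k j * t j : ℝ) : ℂ) * Complex.I) - 1) ^ l) * fc f k := by
  have h1 : fc (mixedDiff l e t f) k =
      ∑ ν ∈ Fintype.piFinset (fun j => if j ∈ e then Finset.range (l + 1) else {0}),
        (∏ j ∈ e, (-1 : ℂ) ^ (l - ν j) * (l.choose (ν j) : ℂ)) *
          (ex k (fun j => ν j * t j) * fc f k) := by
    conv_lhs => unfold fc mixedDiff
    simp only [Finset.sum_mul]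
    rw [integral_finsetSum]
    · apply Finset.sum_congr rfl
      intro ν _
      rw [← fc_translate hf hm, ← integral_const_mul]
      congr 1
      ext x
      rw [mul_assoc]
      rfl
    · intro ν _
      have := (integrable_mul_ex (integrable_translate hf hi (fun j => ν j * t j)) (-k)).const_mul
        (∏ j ∈ e, (-1 : ℂ) ^ (l - ν j) * (l.choose (ν j) : ℂ))
      refine this.congr (Filter.Eventually.of_forall fun x => ?_)
      simp only [mul_assoc]
      rfl
  rw [h1]
  simp only [← mul_assoc]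
  rw [← Finset.sum_mul]
  congr 1
  have h2 : ∀ ν : Fin d → ℕ, ν ∈ Fintype.piFinset
      (fun j => if j ∈ e then Finset.range (l + 1) else {0}) →
      (∏ j ∈ e, (-1 : ℂ) ^ (l - ν j) * (l.choose (ν j) : ℂ)) * ex k (fun j => ν j * t j) =
      ∏ j, (if j ∈ e then (-1 : ℂ) ^ (l - ν j) * (l.choose (ν j) : ℂ) *
        (Complex.exp (((k j * t j : ℝ) : ℂ) * Complex.I)) ^ ν j else 1) := by
    intro ν hν
    rw [Fintype.mem_piFinset] at hν
    rw [Finset.prod_ite, Finset.prod_const_one, mul_one, Finset.filter_mem_eq_inter,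
      Finset.univ_inter, Finset.prod_mul_distrib (f := fun j => (-1 : ℂ) ^ (l - ν j) *
        (l.choose (ν j) : ℂ))]
    congr 1
    unfold ex
    rw [Finset.mul_sum, Complex.exp_sum]
    symm
    rw [← Finset.prod_subset (Finset.subset_univ e)]
    · apply Finset.prod_congr rfl
      intro j _
      rw [← Complex.exp_nat_mul]
      congr 1
      push_cast
      ring
    · intro j _ hj
      have := hν j
      rw [if_neg hj, Finset.mem_singleton] at this
      simp [this]
  rw [Finset.sum_congr rfl h2]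
  rw [← Finset.prod_univ_sum (fun j => if j ∈ e then Finset.range (l + 1) else {0})
    (fun j n => if j ∈ e then (-1 : ℂ) ^ (l - n) * (l.choose n : ℂ) *
        (Complex.exp (((k j * t j : ℝ) : ℂ) * Complex.I)) ^ n else 1)]
  rw [← Finset.prod_subset (Finset.subset_univ e)]
  · apply Finset.prod_congr rfl
    intro j hj
    simp only [hj, if_true]
    rw [sub_eq_add_neg, add_pow]
    apply Finset.sum_congr rfl
    intro n _
    ring
  · intro j _ hj
    simp [hj]

lemma measurable_mixedDiff {d : ℕ} {f : (Fin d → ℝ) → ℂ} (hm : Measurable f) (l : ℕ)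
    (e : Finset (Fin d)) (t : Fin d → ℝ) : Measurable (mixedDiff l e t f) := by
  unfold mixedDiff
  apply Finset.measurable_sum
  intro ν _
  apply Measurable.const_mul
  apply hm.comp
  apply measurable_pi_lambda
  intro j
  exact (measurable_pi_apply j).add_const _

lemma mixedDiff_empty {d : ℕ} (f : (Fin d → ℝ) → ℂ) (l : ℕ) (t : Fin d → ℝ) :
    mixedDiff l ∅ t f = f := by
  ext x
  unfold mixedDiff
  have : Fintype.piFinset (fun j : Fin d => if j ∈ (∅ : Finset (Fin d)) then
      Finset.range (l + 1) else {0}) = {0} := by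
    ext ν
    simp only [Fintype.mem_piFinset, Finset.notMem_empty, if_false, Finset.mem_singleton]
    exact ⟨fun h => funext h, fun h j => by rw [h]; rfl⟩
  rw [this]
  simp

lemma exp_sub_one_lower (θ : ℝ) (h1 : 1 ≤ |θ|) (h2 : |θ| < 2) :
    1 / 2 ≤ ‖Complex.exp ((θ : ℂ) * Complex.I) - 1‖ := by
  have e : ‖Complex.exp ((θ : ℂ) * Complex.I) - 1‖ = |2 * Real.sin (θ / 2)| := by
    rw [mul_comm, Complex.norm_exp_I_mul_ofReal_sub_one]
    rfl
  rw [e, abs_mul, abs_of_pos (by norm_num : (0 : ℝ) < 2)]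
  have e2 : |Real.sin (θ / 2)| = Real.sin (|θ| / 2) := by
    rcases le_total 0 θ with h | h
    · rw [abs_of_nonneg h] at h2 ⊢
      apply abs_of_nonneg
      apply Real.sin_nonneg_of_nonneg_of_le_pi (by linarith)
      have := Real.pi_gt_three
      linarith
    · rw [abs_of_nonpos h] at h2 ⊢
      rw [← abs_neg, ← Real.sin_neg, ← neg_div]
      apply abs_of_nonneg
      apply Real.sin_nonneg_of_nonneg_of_le_pi (by linarith)
      have := Real.pi_gt_three
      linarith
  rw [e2]
  have h3 := Real.mul_le_sin (x := |θ| / 2) (by linarith) (by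
    have := Real.pi_gt_three
    linarith)
  have hpi : 0 < π := Real.pi_pos
  have h4 : 2 / π * (1 / 2) ≤ 2 / π * (|θ| / 2) :=
    mul_le_mul_of_nonneg_left (by linarith) (by positivity)
  have h5 : (1 : ℝ) / 4 ≤ 2 / π * (1 / 2) := by
    rw [div_mul_div_comm, div_le_div_iff₀ (by norm_num) (by positivity)]
    have := Real.pi_lt_four
    linarith
  linarith

/-- the active coordinates -/
def act {d : ℕ} (s : Fin d → ℕ) : Finset (Fin d) := univ.filter fun j => 1 ≤ s j

/-- the steps -/
noncomputable def stp {d : ℕ} (s : Fin d → ℕ) (j : Fin d) : ℝ := 2 / 2 ^ s j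

lemma lev_bounds {d : ℕ} (k : Fin d → ℤ) (j : Fin d) (hj : j ∈ act (lev k)) :
    1 ≤ |(k j : ℝ) * stp (lev k) j| ∧ |(k j : ℝ) * stp (lev k) j| < 2 := by
  have h1 : 1 ≤ (k j).natAbs.size := (Finset.mem_filter.mp hj).2
  have h2 : (k j).natAbs < 2 ^ (k j).natAbs.size := Nat.lt_size_self _
  have h3 : 2 ^ ((k j).natAbs.size - 1) ≤ (k j).natAbs := Nat.lt_size.mp (by omega)
  have e : |(k j : ℝ)| = ((k j).natAbs : ℝ) := by
    rw [Nat.cast_natAbs]; push_cast; rfl
  have h2' : |(k j : ℝ)| < 2 ^ (k j).natAbs.size := by rw [e]; exact_mod_cast h2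
  have h3' : (2 : ℝ) ^ ((k j).natAbs.size - 1) ≤ |(k j : ℝ)| := by rw [e]; exact_mod_cast h3
  have h4 : (2 : ℝ) ^ (k j).natAbs.size = 2 * 2 ^ ((k j).natAbs.size - 1) := by
    rw [← pow_succ']; congr 1; omega
  unfold stp lev
  have hp : (0 : ℝ) < 2 ^ (k j).natAbs.size := by positivity
  rw [abs_mul, abs_of_pos (by positivity : (0 : ℝ) < 2 / 2 ^ (k j).natAbs.size)]
  constructor
  · rw [← mul_div_assoc, le_div_iff₀ hp]
    linarith
  · rw [← mul_div_assoc, div_lt_iff₀ hp]
    linarith

theorem H_coeff (d : ℕ) (r : ℝ) (hr : 0 < r) : ∃ C : ℝ, 1 ≤ C ∧ ∃ μ : (Fin d → ℤ) → ℂ,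
    (∀ k, ‖μ k‖ ≤ 1) ∧ ∀ (p : ℝ≥0∞), 1 ≤ p → ∀ f ∈ Hclass d ℂ r p,
      ∃ h : (Fin d → ℕ) → (Fin d → ℝ) → ℂ,
        (∀ s, MemLp (h s) p (tor d) ∧ eLpNorm (h s) p (tor d) ≤ 1) ∧
        ∀ k, (((2 : ℝ) ^ (r * ∑ j, (lev k j : ℝ)) : ℝ) : ℂ) * fc f k = (C : ℂ) * μ k * fc (h (lev k)) k := by
  set l : ℕ := ⌊r⌋₊ + 1 with hl
  set C : ℝ := (2 : ℝ) ^ (r * d) * 2 ^ (l * d) with hC
  have hCp : 0 < C := by positivity
  set P : (Fin d → ℤ) → ℂ := fun k => ∏ j ∈ act (lev k),
    (Complex.exp (((k j * stp (lev k) j : ℝ) : ℂ) * Complex.I) - 1) ^ l with hP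
  have hPl : ∀ k, (1 / 2 : ℝ) ^ (l * d) ≤ ‖P k‖ := by
    intro k
    simp only [hP, norm_prod, norm_pow]
    calc (1 / 2 : ℝ) ^ (l * d) ≤ (1 / 2 : ℝ) ^ (l * (act (lev k)).card) := by
          apply pow_le_pow_of_le_one (by norm_num) (by norm_num)
          apply Nat.mul_le_mul_left
          exact (Finset.card_le_univ _).trans (by simp)
      _ = ∏ j ∈ act (lev k), (1 / 2 : ℝ) ^ l := by
          rw [Finset.prod_const, ← pow_mul]
      _ ≤ _ := by
          apply Finset.prod_le_prod
          · intro j _; positivity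
          · intro j hj
            apply pow_le_pow_left₀ (by norm_num)
            obtain ⟨h1, h2⟩ := lev_bounds k j hj
            exact exp_sub_one_lower _ h1 h2
  have hP0 : ∀ k, P k ≠ 0 := by
    intro k h
    have := hPl k
    rw [h, norm_zero] at this
    have h2 : (0 : ℝ) < (1 / 2 : ℝ) ^ (l * d) := by positivity
    linarith
  refine ⟨C, ?_, fun k => (((2 : ℝ) ^ (r * ((act (lev k)).card : ℝ)) : ℝ) : ℂ) / ((C : ℂ) * P k),
    ?_, ?_⟩
  · rw [hC]
    have h1 : (1 : ℝ) ≤ 2 ^ (r * d) := Real.one_le_rpow (by norm_num) (by positivity)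
    have h2 : (1 : ℝ) ≤ 2 ^ (l * d) := one_le_pow₀ (by norm_num)
    nlinarith
  · intro k
    rw [norm_div, norm_mul, Complex.norm_real, Complex.norm_real, Real.norm_of_nonneg (by positivity),
      Real.norm_of_nonneg hCp.le]
    have hPk := hPl k
    have hPp : 0 < ‖P k‖ := norm_pos_iff.mpr (hP0 k)
    rw [div_le_one (by positivity)]
    have h1 : (2 : ℝ) ^ (r * ((act (lev k)).card : ℝ)) ≤ 2 ^ (r * d) := by
      apply Real.rpow_le_rpow_of_exponent_le (by norm_num)
      apply mul_le_mul_of_nonneg_left _ hr.le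
      have : (act (lev k)).card ≤ d := (Finset.card_le_univ _).trans (by simp)
      exact_mod_cast this
    calc (2 : ℝ) ^ (r * ((act (lev k)).card : ℝ)) ≤ 2 ^ (r * d) := h1
      _ = C * (1 / 2 : ℝ) ^ (l * d) := by
          rw [hC, mul_assoc, ← mul_pow]; norm_num
      _ ≤ C * ‖P k‖ := mul_le_mul_of_nonneg_left hPk hCp.le
  · intro p hp f hf
    obtain ⟨hm, hper, hn, hd⟩ := hf
    have hper' : Per f := hper
    have hmem : MemLp f p (tor d) := ⟨hm.aestronglyMeasurable, hn.trans_lt ENNReal.one_lt_top⟩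
    have hi : Integrable f (tor d) := hmem.integrable hp
    have hprod : ∀ s : Fin d → ℕ, ∏ j ∈ act s, |stp s j| ^ r =
        (2 : ℝ) ^ (r * ((act s).card - ∑ j, (s j : ℝ))) := by
      intro s
      have e1 : ∀ j ∈ act s, |stp s j| ^ r = (2 : ℝ) ^ (r * (1 - (s j : ℝ))) := by
        intro j _
        unfold stp
        rw [abs_of_pos (by positivity), mul_comm r, Real.rpow_mul (by norm_num), Real.rpow_sub
          (by norm_num), Real.rpow_one, Real.rpow_natCast]
      rw [Finset.prod_congr rfl e1, ← Real.rpow_sum_of_pos (by norm_num)]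
      congr 1
      rw [← Finset.mul_sum, Finset.sum_sub_distrib]
      congr 2
      · simp
      · apply Finset.sum_subset (Finset.subset_univ _)
        intro j _ hj
        have : s j = 0 := by
          simpa [act] using hj
        simp [this]
    refine ⟨fun s x => (((2 : ℝ) ^ (r * (∑ j, (s j : ℝ) - (act s).card)) : ℝ) : ℂ) *
      mixedDiff l (act s) (stp s) f x, ?_, ?_⟩
    · intro s
      have hms : Measurable (fun x => (((2 : ℝ) ^ (r * (∑ j, (s j : ℝ) - (act s).card)) : ℝ) : ℂ) *
          mixedDiff l (act s) (stp s) f x) := (measurable_mixedDiff hm _ _ _).const_mul _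
      have hle : eLpNorm (fun x => (((2 : ℝ) ^ (r * (∑ j, (s j : ℝ) - (act s).card)) : ℝ) : ℂ) *
          mixedDiff l (act s) (stp s) f x) p (tor d) ≤ 1 := by
        have e1 : eLpNorm (fun x => (((2 : ℝ) ^ (r * (∑ j, (s j : ℝ) - (act s).card)) : ℝ) : ℂ) *
          mixedDiff l (act s) (stp s) f x) p (tor d) =
          ENNReal.ofReal ((2 : ℝ) ^ (r * (∑ j, (s j : ℝ) - (act s).card))) *
            eLpNorm (mixedDiff l (act s) (stp s) f) p (tor d) := by
          have := eLpNorm_const_smul (p := p) (μ := tor d)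
            ((((2 : ℝ) ^ (r * (∑ j, (s j : ℝ) - (act s).card)) : ℝ) : ℂ))
            (mixedDiff l (act s) (stp s) f)
          rw [← ofReal_norm, Complex.norm_real, Real.norm_of_nonneg (by positivity)] at this
          exact this
        rw [e1]
        have h2 : eLpNorm (mixedDiff l (act s) (stp s) f) p (tor d) ≤
            ENNReal.ofReal ((2 : ℝ) ^ (r * ((act s).card - ∑ j, (s j : ℝ)))) := by
          rcases (act s).eq_empty_or_nonempty with he | he
          · have hs0 : ∑ j, (s j : ℝ) = 0 := by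
              apply Finset.sum_eq_zero
              intro j _
              have : j ∉ act s := by rw [he]; simp
              have : s j = 0 := by simpa [act] using this
              simp [this]
            rw [he, mixedDiff_empty, hs0]
            simpa using hn
          · rw [← hprod s]
            exact hd _ _ he
        calc _ ≤ ENNReal.ofReal ((2 : ℝ) ^ (r * (∑ j, (s j : ℝ) - (act s).card))) *
            ENNReal.ofReal ((2 : ℝ) ^ (r * ((act s).card - ∑ j, (s j : ℝ)))) := by gcongr
          _ = 1 := by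
            rw [← ENNReal.ofReal_mul (by positivity), ← Real.rpow_add (by norm_num)]
            ring_nf
            simp
      exact ⟨⟨hms.aestronglyMeasurable, hle.trans_lt ENNReal.one_lt_top⟩, hle⟩
    · intro k
      have e1 : fc (fun x => (((2 : ℝ) ^ (r * (∑ j, (lev k j : ℝ) - (act (lev k)).card)) : ℝ) : ℂ) *
          mixedDiff l (act (lev k)) (stp (lev k)) f x) k =
          (((2 : ℝ) ^ (r * (∑ j, (lev k j : ℝ) - (act (lev k)).card)) : ℝ) : ℂ) *
            (P k * fc f k) := by
        rw [hP, ← fc_mixedDiff hper' hm hi]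
        unfold fc
        rw [← integral_const_mul]
        congr 1
        ext x
        ring
      rw [e1]
      have h2 : (((2 : ℝ) ^ (r * ∑ j, (lev k j : ℝ)) : ℝ) : ℂ) =
          (((2 : ℝ) ^ (r * ((act (lev k)).card : ℝ)) : ℝ) : ℂ) *
          (((2 : ℝ) ^ (r * (∑ j, (lev k j : ℝ) - (act (lev k)).card)) : ℝ) : ℂ) := by
        rw [← Complex.ofReal_mul, ← Real.rpow_add (by norm_num)]
        congr 2
        ring
      rw [h2]
      have hCc : (C : ℂ) ≠ 0 := by exact_mod_cast hCp.ne'
      have := hP0 k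
      field_simp

end Pool.Agent.Helper42.SB
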