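import Pool.Agent.Helper60.SB.Defs4
import Pool.Agent.Helper42.SB.H1

/-!
Module L6: sums of building blocks of several levels lie in the class `H^r_p`.
-/

open Finset MeasureTheory
open scoped ENNReal Real Topology fwdDiff

namespace Pool.Agent.Helper42.SB

open Pool.Agent.Helper60.SB

/-- the key pointwise bound, several levels -/
lemma key_bound_gen (e : ℕ) (u : ℝ → ℝ) (hu : ContDiff ℝ (⊤ : ℕ∞) u)
    (hsupp : ∀ t, (t ≤ 1 / 10 ∨ 9 / 10 ≤ t) → u t = 0) (r : ℝ) (hr : 0 < r) (l : ℕ) (hl : r < l) :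
    ∃ K > 0, ∀ (Sh : Finset (Fin (e + 1) → ℕ)) (a : (Fin (e + 1) → ℕ) → (Fin (e + 1) → ℕ) → ℝ)
      (_ : ∀ s ∈ Sh, ∀ c ∈ cells s, |a s c| ≤ (2 : ℝ) ^ (-(r * ∑ j, (s j : ℝ))))
      (E : Finset (Fin (e + 1))) (t x : Fin (e + 1) → ℝ),
      |K * ∑ s ∈ Sh, ∑ c ∈ cells s, a s c *
        ∏ j, (if j ∈ E then D1 l (t j) (ub u (s j) (c j)) (x j) else
          ub u (s j) (c j) (x j))| ≤ ∏ j ∈ E, |t j| ^ r := by
  obtain ⟨M₀, hM₀0, hM₀⟩ := u_bound u hu hsupp 0
  simp only [iteratedDeriv_zero] at hM₀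
  obtain ⟨C1, hC1, hD⟩ := D1_sum_le u hu hsupp l
  obtain ⟨C2, hC2, hG⟩ := geom_sum_le r hr l hl
  have h2r : (2 : ℝ) ^ (-r) < 1 := Real.rpow_lt_one_of_one_lt_of_neg (by norm_num) (by linarith)
  have h2r0 : (0 : ℝ) < 2 ^ (-r) := by positivity
  set C3 : ℝ := 1 / (1 - 2 ^ (-r)) with hC3
  have hC3p : 0 < C3 := by apply one_div_pos.mpr; linarith
  have hgeo : ∀ m : ℕ, ∑ s ∈ range m, (2 : ℝ) ^ (-(r * s)) ≤ C3 := by
    intro m
    calc ∑ s ∈ range m, (2 : ℝ) ^ (-(r * s)) = ∑ s ∈ range m, ((2 : ℝ) ^ (-r)) ^ s := by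
          apply Finset.sum_congr rfl
          intro s _
          rw [← Real.rpow_natCast ((2 : ℝ) ^ (-r)), ← Real.rpow_mul (by norm_num)]
          ring_nf
      _ ≤ C3 := by
          rw [geom_sum_eq (ne_of_lt h2r)]
          rw [← neg_div_neg_eq, neg_sub, neg_sub, hC3]
          apply div_le_div_of_nonneg_right _ (by linarith)
          have : (0 : ℝ) ≤ ((2 : ℝ) ^ (-r)) ^ m := by positivity
          linarith
  set C : ℝ := C1 * C2 + C1 + M₀ * C3 + M₀ + 1 with hC
  have hCp : 0 < C := by positivity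
  refine ⟨(1 / C) ^ (e + 1), by positivity, ?_⟩
  intro Sh a ha E t x
  obtain ⟨m, hm⟩ : ∃ m : ℕ, Sh ⊆ Fintype.piFinset fun _ : Fin (e + 1) => range m := by
    refine ⟨Sh.sup (fun s => univ.sup s) + 1, fun s hs => ?_⟩
    rw [Fintype.mem_piFinset]
    intro j
    rw [mem_range, Nat.lt_succ_iff]
    exact (Finset.le_sup (f := s) (mem_univ j)).trans
      (Finset.le_sup (f := fun s : Fin (e + 1) → ℕ => univ.sup s) hs)
  set A : Fin (e + 1) → ℕ → ℕ → ℝ := fun j s c =>
    if j ∈ E then D1 l (t j) (ub u s c) (x j) else ub u s c (x j) with hA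
  set B : Fin (e + 1) → ℕ → ℝ := fun j s =>
    (2 : ℝ) ^ (-(r * s)) * ∑ c ∈ range (2 ^ s), |A j s c| with hB
  set h : Fin (e + 1) → ℝ := fun j => C * (if j ∈ E then |t j| ^ r else 1) with hh
  have hB0 : ∀ j s, 0 ≤ B j s := by
    intro j s
    apply mul_nonneg (by positivity)
    exact Finset.sum_nonneg fun _ _ => abs_nonneg _
  have hh0 : ∀ j, 0 ≤ h j := by
    intro j
    apply mul_nonneg hCp.le
    split_ifs <;> positivity
  have hsum : ∀ j s, j ∈ E → B j s ≤ C1 * ((2 : ℝ) ^ (-(r * s)) * min 1 (((2 : ℝ) ^ s * |t j|) ^ l)) := by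
    intro j s hj
    have := hD s (t j) (x j)
    simp only [hB, hA, hj, if_true]
    calc _ ≤ (2 : ℝ) ^ (-(r * s)) * (C1 * min 1 (((2 : ℝ) ^ s * |t j|) ^ l)) :=
          mul_le_mul_of_nonneg_left this (by positivity)
      _ = _ := by ring
  have hsum' : ∀ j s, j ∉ E → B j s ≤ M₀ * (2 : ℝ) ^ (-(r * s)) := by
    intro j s hj
    have := ub_sum_le u hsupp M₀ hM₀0 hM₀ s (x j)
    simp only [hB, hA, hj, if_false]
    calc _ ≤ (2 : ℝ) ^ (-(r * s)) * M₀ :=
          mul_le_mul_of_nonneg_left this (by positivity)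
      _ = _ := by ring
  have h1 : ∀ j, ∑ s ∈ range m, B j s ≤ h j := by
    intro j
    by_cases hj : j ∈ E
    · calc ∑ s ∈ range m, B j s
          ≤ ∑ s ∈ range m, C1 * ((2 : ℝ) ^ (-(r * s)) * min 1 (((2 : ℝ) ^ s * |t j|) ^ l)) :=
            Finset.sum_le_sum fun s _ => hsum j s hj
        _ = C1 * ∑ s ∈ range m, ((2 : ℝ) ^ (-(r * s)) * min 1 (((2 : ℝ) ^ s * |t j|) ^ l)) := by
            rw [Finset.mul_sum]
        _ ≤ C1 * (C2 * |t j| ^ r) := mul_le_mul_of_nonneg_left (hG m _ (abs_nonneg _)) hC1.le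
        _ ≤ h j := by
            simp only [hh, hj, if_true]
            rw [← mul_assoc]
            apply mul_le_mul_of_nonneg_right _ (by positivity)
            have : 0 ≤ M₀ * C3 := by positivity
            rw [hC]; linarith
    · calc ∑ s ∈ range m, B j s
          ≤ ∑ s ∈ range m, M₀ * (2 : ℝ) ^ (-(r * s)) :=
            Finset.sum_le_sum fun s _ => hsum' j s hj
        _ = M₀ * ∑ s ∈ range m, (2 : ℝ) ^ (-(r * s)) := by rw [Finset.mul_sum]
        _ ≤ M₀ * C3 := mul_le_mul_of_nonneg_left (hgeo m) hM₀0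
        _ ≤ h j := by
            simp only [hh, hj, if_false, mul_one]
            have : 0 ≤ C1 * C2 := by positivity
            rw [hC]; linarith
  have h3 : ∑ s ∈ Sh, ∏ j, B j (s j) ≤ ∏ j, h j := by
    calc ∑ s ∈ Sh, ∏ j, B j (s j)
        ≤ ∑ s ∈ Fintype.piFinset fun _ : Fin (e + 1) => range m, ∏ j, B j (s j) := by
          apply Finset.sum_le_sum_of_subset_of_nonneg hm
          intro s _ _
          exact Finset.prod_nonneg fun _ _ => hB0 _ _
      _ = ∏ j, ∑ s ∈ range m, B j s := by rw [Finset.prod_univ_sum]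
      _ ≤ ∏ j, h j := by
          apply Finset.prod_le_prod
          · intro j _
            exact Finset.sum_nonneg fun _ _ => hB0 _ _
          · intro j _
            exact h1 j
  have h4 : |∑ s ∈ Sh, ∑ c ∈ cells s, a s c * ∏ j, A j (s j) (c j)| ≤
      ∑ s ∈ Sh, ∏ j, B j (s j) := by
    refine (Finset.abs_sum_le_sum_abs _ _).trans ?_
    apply Finset.sum_le_sum
    intro s hs
    refine (Finset.abs_sum_le_sum_abs _ _).trans ?_
    calc ∑ c ∈ cells s, |a s c * ∏ j, A j (s j) (c j)|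
        ≤ ∑ c ∈ cells s, (2 : ℝ) ^ (-(r * ∑ j, (s j : ℝ))) * ∏ j, |A j (s j) (c j)| := by
          apply Finset.sum_le_sum
          intro c hc
          rw [abs_mul, Finset.abs_prod]
          exact mul_le_mul_of_nonneg_right (ha s hs c hc) (Finset.prod_nonneg fun _ _ => abs_nonneg _)
      _ = ∏ j, B j (s j) := by
          rw [← Finset.mul_sum]
          simp only [hB]
          rw [Finset.prod_mul_distrib]
          congr 1
          · rw [← Real.rpow_sum_of_pos (by norm_num)]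
            congr 1
            rw [Finset.sum_neg_distrib, ← Finset.mul_sum]
          · rw [Finset.prod_univ_sum]
            rfl
  rw [abs_mul, abs_of_pos (show (0 : ℝ) < (1 / C) ^ (e + 1) by positivity)]
  calc (1 / C) ^ (e + 1) * |∑ s ∈ Sh, ∑ c ∈ cells s, a s c *
      ∏ j, A j (s j) (c j)| ≤ (1 / C) ^ (e + 1) * ∏ j, h j :=
        mul_le_mul_of_nonneg_left (h4.trans h3) (by positivity)
    _ = ∏ j ∈ E, |t j| ^ r := by
        simp only [hh]
        rw [Finset.prod_mul_distrib, Finset.prod_ite_mem univ E, Finset.univ_inter,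
          Finset.prod_const, Finset.card_univ, Fintype.card_fin, ← mul_assoc, ← mul_pow]
        rw [one_div_mul_cancel hCp.ne', one_pow, one_mul]

lemma mixedDiff_sum2 {d : ℕ} {ι : Type*} (l : ℕ) (E : Finset (Fin d)) (t : Fin d → ℝ)
    (Sh : Finset ι) (T : ι → Finset ι)
    (a : ι → ι → ℝ) (F : ι → ι → (Fin d → ℝ) → ℝ) (x : Fin d → ℝ) (K : ℝ) :
    mixedDiff (𝕜 := ℝ) l E t (fun x => K * ∑ s ∈ Sh, ∑ c ∈ T s, a s c * F s c x) x =
      K * ∑ s ∈ Sh, ∑ c ∈ T s, a s c * mixedDiff (𝕜 := ℝ) l E t (F s c) x := by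
  unfold mixedDiff
  simp only [Finset.mul_sum]
  rw [Finset.sum_comm]
  apply Finset.sum_congr rfl
  intro s _
  rw [Finset.sum_comm]
  apply Finset.sum_congr rfl
  intro c _
  apply Finset.sum_congr rfl
  intro ν _
  ring

theorem mem_H_gen (e : ℕ) (u : ℝ → ℝ) (hu : ContDiff ℝ (⊤ : ℕ∞) u)
    (hsupp : ∀ t, (t ≤ 1 / 10 ∨ 9 / 10 ≤ t) → u t = 0) (r : ℝ) (hr : 0 < r)
    (p : ℝ≥0∞) (𝕜 : Type) [RCLike 𝕜] :
    ∃ K > 0, ∀ (Sh : Finset (Fin (e + 1) → ℕ)) (a : (Fin (e + 1) → ℕ) → (Fin (e + 1) → ℕ) → ℝ),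
      (∀ s ∈ Sh, ∀ c ∈ cells s, |a s c| ≤ (2 : ℝ) ^ (-(r * ∑ j, (s j : ℝ)))) →
      (fun x => ((K * ∑ s ∈ Sh, ∑ c ∈ cells s, a s c * sblk u s c x : ℝ) : 𝕜)) ∈
        Hclass (e + 1) 𝕜 r p := by
  have hl : r < ((⌊r⌋₊ + 1 : ℕ) : ℝ) := by
    push_cast
    exact Nat.lt_floor_add_one r
  obtain ⟨K, hK, hb⟩ := key_bound_gen e u hu hsupp r hr (⌊r⌋₊ + 1) hl
  refine ⟨K, hK, fun Sh a ha => ?_⟩
  have hcontR : ∀ (s c : Fin (e + 1) → ℕ), c ∈ cells s → Continuous (sblk u s c) := by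
    intro s c hc
    unfold sblk
    apply continuous_finsetProd
    intro j _
    exact (ub_contDiff u hu hsupp (mem_range.mp (Fintype.mem_piFinset.mp hc j))).continuous.comp
      (continuous_apply j)
  have hcont : Continuous (fun x : Fin (e + 1) → ℝ =>
      ((K * ∑ s ∈ Sh, ∑ c ∈ cells s, a s c * sblk u s c x : ℝ) : 𝕜)) := by
    apply RCLike.continuous_ofReal.comp
    apply continuous_const.mul
    apply continuous_finsetSum
    intro s _
    apply continuous_finsetSum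
    intro c hc
    exact continuous_const.mul (hcontR s c hc)
  refine ⟨hcont.measurable, ?_, ?_, ?_⟩
  · intro x j
    have : ∀ s c : Fin (e + 1) → ℕ, sblk u s c (Function.update x j (x j + 2 * π)) =
        sblk u s c x := by
      intro s c
      unfold sblk
      apply Finset.prod_congr rfl
      intro i _
      by_cases hij : i = j
      · subst hij
        rw [Function.update_self, ub_periodic]
      · rw [Function.update_of_ne hij]
    simp only [this]
  · have h0 := eLpNorm_le_of_ae_bound (p := p) (μ := tor (e + 1)) (C := 1)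
      (f := (fun x : Fin (e + 1) → ℝ =>
        ((K * ∑ s ∈ Sh, ∑ c ∈ cells s, a s c * sblk u s c x : ℝ) : 𝕜)))
      (Filter.Eventually.of_forall fun x => by
        rw [RCLike.norm_ofReal]
        have := hb Sh a ha ∅ (fun _ => 0) x
        simpa [sblk] using this)
    simpa using h0
  · intro E t _
    have h0 := eLpNorm_le_of_ae_bound (p := p) (μ := tor (e + 1)) (C := ∏ j ∈ E, |t j| ^ r)
      (f := mixedDiff (⌊r⌋₊ + 1) E t (fun x : Fin (e + 1) → ℝ =>
        ((K * ∑ s ∈ Sh, ∑ c ∈ cells s, a s c * sblk u s c x : ℝ) : 𝕜)))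
      (Filter.Eventually.of_forall fun x => by
        rw [mixedDiff_coe, RCLike.norm_ofReal, mixedDiff_sum2]
        have := hb Sh a ha E t x
        refine le_trans (le_of_eq ?_) this
        congr 2
        apply Finset.sum_congr rfl
        intro s _
        apply Finset.sum_congr rfl
        intro c _
        congr 1
        exact mixedDiff_prod _ E t (fun j => ub u (s j) (c j)) x)
    simpa using h0

end Pool.Agent.Helper42.SB
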