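import Pool.Agent.Helper60.SB.Defs4
import Pool.Agent.Helper42.SB.U13

/-!
Module M9: representation of the classes `H`.
-/

open Finset MeasureTheory
open scoped ENNReal Real Topology

namespace Pool.Agent.Helper42.SB

open Pool.Agent.Helper60.SB

namespace M9

/-- the step of the differences -/
noncomputable def st2 {d : ℕ} (s : Fin d → ℕ) (j : Fin d) : ℝ := (2 : ℝ) ^ (-(s j : ℝ))

/-- the active variables -/
def ac {d : ℕ} (s : Fin d → ℕ) : Finset (Fin d) := univ.filter fun j => s j ≠ 0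

lemma card_shps (e m : ℕ) : (shps (e + 1) m).card ≤ (m + 1) ^ e := by
  calc (shps (e + 1) m).card
      ≤ (Fintype.piFinset fun _ : Fin e => range (m + 1)).card := by
        apply Finset.card_le_card_of_injOn (fun s (j : Fin e) => s j.castSucc)
        · intro s hs
          simp only [shps, coe_filter, Fintype.mem_piFinset, Set.mem_ofPred_eq] at hs
          rw [Finset.mem_coe, Fintype.mem_piFinset]
          intro j
          exact hs.1 _
        · intro s hs s' hs' h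
          simp only [shps, coe_filter, Fintype.mem_piFinset, Set.mem_ofPred_eq] at hs hs'
          have h1 : ∀ j : Fin e, s j.castSucc = s' j.castSucc := fun j => congrFun h j
          funext j
          refine Fin.lastCases ?_ (fun i => h1 i) j
          have e1 := hs.2
          have e2 := hs'.2
          rw [Fin.sum_univ_castSucc] at e1 e2
          have : ∑ i : Fin e, s i.castSucc = ∑ i : Fin e, s' i.castSucc :=
            Finset.sum_congr rfl fun i _ => h1 i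
          omega
    _ = (m + 1) ^ e := by simp

lemma lev_lt {d : ℕ} (k : Fin d → ℤ) (j : Fin d) : |k j| < 2 ^ lev k j := by
  unfold lev
  have h := Nat.lt_size_self (k j).natAbs
  have : ((k j).natAbs : ℤ) < ((2 ^ (k j).natAbs.size : ℕ) : ℤ) := by exact_mod_cast h
  rw [Int.natCast_natAbs] at this
  simpa using this

lemma mem_shps {d m : ℕ} {s : Fin d → ℕ} : s ∈ shps d m ↔ ∑ j, s j = m := by
  simp only [shps, mem_filter, Fintype.mem_piFinset, mem_range, and_iff_right_iff_imp]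
  rintro rfl j
  exact Nat.lt_succ_of_le (Finset.single_le_sum (f := s) (fun _ _ => Nat.zero_le _) (mem_univ j))

/-- the sum of the partition of unity -/
lemma sum_unity {d : ℕ} (hsum : ∀ (M : ℕ) (k : ℤ), |k| ≤ 2 ^ M → ∑ s ∈ range (M + 1), eta s k = 1)
    (hzero : ∀ (s : ℕ) (k : ℤ), k.natAbs.size ≠ s → k.natAbs.size ≠ s + 1 → eta s k = 0)
    (k : Fin d → ℤ) :
    ∑ m ∈ range (∑ j, lev k j + 1), ∑ s ∈ shps d m, ∏ j, eta (s j) (k j) = 1 := by
  set L := ∑ j, lev k j with hL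
  have hle : ∀ j, lev k j ≤ L := fun j =>
    Finset.single_le_sum (f := fun j => lev k j) (fun _ _ => Nat.zero_le _) (mem_univ j)
  have h1 : ∏ j, ∑ s ∈ range (L + 1), eta s (k j) = 1 := by
    apply Finset.prod_eq_one
    intro j _
    apply hsum
    exact (lev_lt k j).le.trans (pow_le_pow_right₀ (by norm_num) (hle j))
  rw [Finset.prod_univ_sum] at h1
  have h2 : ∑ s ∈ (Fintype.piFinset fun _ : Fin d => range (L + 1)), ∏ j, eta (s j) (k j) =
      ∑ s ∈ (Fintype.piFinset fun _ : Fin d => range (L + 1)).filter (fun s => ∑ j, s j ≤ L),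
        ∏ j, eta (s j) (k j) := by
    symm
    apply Finset.sum_filter_of_ne
    intro s _ hne
    rw [Finset.prod_ne_zero_iff] at hne
    apply Finset.sum_le_sum
    intro j _
    have := hne j (mem_univ j)
    by_contra hlt
    push Not at hlt
    apply this
    apply hzero
    · exact hlt.ne
    · have : lev k j < s j + 1 := by omega
      exact this.ne
  rw [h2] at h1
  rw [← h1, ← Finset.sum_fiberwise_of_maps_to (s := (Fintype.piFinset fun _ : Fin d =>
    range (L + 1)).filter (fun s => ∑ j, s j ≤ L)) (t := range (L + 1)) (g := fun s => ∑ j, s j)]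
  · apply Finset.sum_congr rfl
    intro m hm
    rw [mem_range] at hm
    apply Finset.sum_congr _ (fun _ _ => rfl)
    ext s
    rw [mem_shps]
    simp only [mem_filter, Fintype.mem_piFinset, mem_range]
    constructor
    · intro h
      have h3 : ∀ j, s j ≤ ∑ j, s j := fun j =>
        Finset.single_le_sum (f := s) (fun _ _ => Nat.zero_le _) (mem_univ j)
      refine ⟨⟨fun j => ?_, ?_⟩, h⟩
      · have := h3 j
        omega
      · omega
    · exact fun h => h.2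
  · intro s hs
    rw [mem_filter] at hs
    exact mem_range.mpr (Nat.lt_succ_of_le hs.2)

lemma mem_Qs {e m : ℕ}
    (hzero : ∀ (s : ℕ) (k : ℤ), k.natAbs.size ≠ s → k.natAbs.size ≠ s + 1 → eta s k = 0)
    (k : Fin (e + 1) → ℤ) (s : Fin (e + 1) → ℕ) (hs : s ∈ shps (e + 1) m)
    (hne : ∏ j, eta (s j) (k j) ≠ 0) : k ∈ Qs (e + 1) m := by
  rw [mem_shps] at hs
  rw [Finset.prod_ne_zero_iff] at hne
  have h1 : ∀ j, lev k j = s j ∨ lev k j = s j + 1 := by
    intro j
    by_contra h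
    push Not at h
    exact hne j (mem_univ j) (hzero _ _ h.1 h.2)
  have h2 : ∑ j, s j ≤ ∑ j, lev k j := by
    apply Finset.sum_le_sum
    intro j _
    rcases h1 j with h | h <;> omega
  have h3 : ∑ j, lev k j ≤ ∑ j, s j + (e + 1) := by
    calc ∑ j, lev k j ≤ ∑ j, (s j + 1) := by
          apply Finset.sum_le_sum
          intro j _
          rcases h1 j with h | h <;> omega
      _ = ∑ j, s j + (e + 1) := by rw [Finset.sum_add_distrib]; simp
  unfold Qs
  rw [mem_biUnion]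
  refine ⟨∑ j, lev k j - m, mem_range.mpr (by omega), ?_⟩
  unfold Qm
  have h4 : m + (∑ j, lev k j - m) = ∑ j, lev k j := by omega
  rw [h4, mem_filter, Fintype.mem_piFinset]
  refine ⟨fun j => ?_, rfl⟩
  have h5 : lev k j ≤ ∑ j, lev k j :=
    Finset.single_le_sum (f := fun j => lev k j) (fun _ _ => Nat.zero_le _) (mem_univ j)
  have h6 : |k j| ≤ 2 ^ (∑ j, lev k j) :=
    (lev_lt k j).le.trans (pow_le_pow_right₀ (by norm_num) h5)
  rw [abs_le] at h6
  exact mem_Icc.mpr h6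

lemma exp_ne_one (θ : ℝ) (h0 : θ ≠ 0) (h2 : |θ| < 2) : Complex.exp ((θ : ℂ) * Complex.I) ≠ 1 := by
  intro h
  rw [Complex.exp_eq_one_iff] at h
  obtain ⟨n, hn⟩ := h
  have h3 : (θ : ℂ) = n * (2 * π) := by
    have : (θ : ℂ) * Complex.I = (n * (2 * π)) * Complex.I := by rw [hn]; ring
    exact mul_right_cancel₀ Complex.I_ne_zero this
  have h4 : θ = n * (2 * π) := by exact_mod_cast h3
  have hpi := Real.pi_gt_three
  by_cases hn0 : n = 0
  · rw [hn0] at h4
    simp at h4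
    exact h0 h4
  · have h5 : (1 : ℝ) ≤ |(n : ℝ)| := by
      have : 1 ≤ |n| := Int.one_le_abs hn0
      exact_mod_cast this
    rw [h4, abs_mul, abs_of_pos (show (0 : ℝ) < 2 * π by positivity)] at h2
    nlinarith

/-- one factor -/
lemma mH_mul (hsupp : ∀ s, 1 ≤ s → ∀ k, eta s k ≠ 0 → 2 ^ (s - 1) < |k| ∧ |k| < 2 ^ (s + 1))
    (s : ℕ) (k : ℤ) : mH s k * (if s ≠ 0 then
      (Complex.exp (((k * (2 : ℝ) ^ (-(s : ℝ)) : ℝ) : ℂ) * Complex.I) - 1) else 1) =
      (eta s k : ℂ) := by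
  unfold mH
  by_cases hs : s = 0
  · simp [hs]
  · rw [if_neg hs, if_pos hs]
    by_cases he : eta s k = 0
    · simp [he]
    · obtain ⟨h1, h2⟩ := hsupp s (Nat.one_le_iff_ne_zero.mpr hs) k he
      have h1' : (2 : ℝ) ^ (s - 1) < |(k : ℝ)| := by exact_mod_cast h1
      have h2' : |(k : ℝ)| < (2 : ℝ) ^ (s + 1) := by exact_mod_cast h2
      have hp : (2 : ℝ) ^ (-(s : ℝ)) = ((2 : ℝ) ^ s)⁻¹ := by
        rw [Real.rpow_neg (by norm_num), Real.rpow_natCast]
      have hne : Complex.exp (((k * (2 : ℝ) ^ (-(s : ℝ)) : ℝ) : ℂ) * Complex.I) ≠ 1 := by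
        apply exp_ne_one
        · have hk0 : (k : ℝ) ≠ 0 := by
            intro h
            rw [h, abs_zero] at h1'
            have : (0 : ℝ) < 2 ^ (s - 1) := by positivity
            linarith
          positivity
        · rw [abs_mul, abs_of_pos (show (0 : ℝ) < (2 : ℝ) ^ (-(s : ℝ)) by positivity), hp,
            ← div_eq_mul_inv, div_lt_iff₀ (by positivity)]
          rw [pow_succ] at h2'
          linarith
      have e1 : Complex.exp (Complex.I * k * ((2 : ℝ) ^ (-(s : ℝ)) : ℝ)) =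
          Complex.exp (((k * (2 : ℝ) ^ (-(s : ℝ)) : ℝ) : ℂ) * Complex.I) := by
        congr 1
        push_cast
        ring
      rw [e1]
      exact div_mul_cancel₀ _ (sub_ne_zero.mpr hne)

/-- the functions of the representation -/
noncomputable def hf {d : ℕ} (r : ℝ) (f : (Fin d → ℝ) → ℂ) (s : Fin d → ℕ) (x : Fin d → ℝ) : ℂ :=
  (((2 : ℝ) ^ (r * ∑ j, (s j : ℝ)) : ℝ) : ℂ) * mixedDiff 1 (ac s) (st2 s) f x

lemma fc_hf {d : ℕ} (r : ℝ) {f : (Fin d → ℝ) → ℂ} (hper : Per f) (hm : Measurable f)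
    (hi : Integrable f (tor d)) (s : Fin d → ℕ) (k : Fin d → ℤ) :
    fc (hf r f s) k = (((2 : ℝ) ^ (r * ∑ j, (s j : ℝ)) : ℝ) : ℂ) *
      ((∏ j, (if s j ≠ 0 then
      (Complex.exp (((k j * (2 : ℝ) ^ (-(s j : ℝ)) : ℝ) : ℂ) * Complex.I) - 1) else 1)) *
        fc f k) := by
  have e1 : fc (hf r f s) k = (((2 : ℝ) ^ (r * ∑ j, (s j : ℝ)) : ℝ) : ℂ) *
      fc (mixedDiff 1 (ac s) (st2 s) f) k := by
    unfold fc hf
    rw [← integral_const_mul]
    congr 1
    ext x
    ring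
  rw [e1, fc_mixedDiff hper hm hi]
  congr 2
  unfold ac st2
  rw [Finset.prod_filter]
  simp only [pow_one]

lemma mem_hf {d : ℕ} (r : ℝ) (hr1 : r < 1) (p : ℝ≥0∞) {f : (Fin d → ℝ) → ℂ}
    (hf' : f ∈ Hclass d ℂ r p) (s : Fin d → ℕ) :
    MemLp (hf r f s) p (tor d) ∧ eLpNorm (hf r f s) p (tor d) ≤ 1 := by
  obtain ⟨hm, hper, hn, hd⟩ := hf'
  have hfl : ⌊r⌋₊ = 0 := Nat.floor_eq_zero.mpr hr1
  rw [hfl, zero_add] at hd
  have hprod : ∏ j ∈ ac s, |st2 s j| ^ r = (2 : ℝ) ^ (-(r * ∑ j, (s j : ℝ))) := by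
    have e1 : ∀ j ∈ ac s, |st2 s j| ^ r = (2 : ℝ) ^ (r * (-(s j : ℝ))) := by
      intro j _
      unfold st2
      rw [abs_of_pos (by positivity), mul_comm r, Real.rpow_mul (by norm_num)]
    rw [Finset.prod_congr rfl e1, ← Real.rpow_sum_of_pos (by norm_num)]
    congr 1
    rw [← Finset.mul_sum, Finset.sum_neg_distrib, mul_neg]
    congr 2
    apply Finset.sum_subset (Finset.subset_univ _)
    intro j _ hj
    have : s j = 0 := by simpa [ac] using hj
    simp [this]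
  have hms : Measurable (hf r f s) := (measurable_mixedDiff hm _ _ _).const_mul _
  have hle : eLpNorm (hf r f s) p (tor d) ≤ 1 := by
    have e1 : eLpNorm (hf r f s) p (tor d) =
        ENNReal.ofReal ((2 : ℝ) ^ (r * ∑ j, (s j : ℝ))) *
          eLpNorm (mixedDiff 1 (ac s) (st2 s) f) p (tor d) := by
      have := eLpNorm_const_smul (p := p) (μ := tor d)
        ((((2 : ℝ) ^ (r * ∑ j, (s j : ℝ)) : ℝ) : ℂ))
        (mixedDiff 1 (ac s) (st2 s) f)
      rw [← ofReal_norm, Complex.norm_real, Real.norm_of_nonneg (by positivity)] at this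
      exact this
    rw [e1]
    have h2 : eLpNorm (mixedDiff 1 (ac s) (st2 s) f) p (tor d) ≤
        ENNReal.ofReal ((2 : ℝ) ^ (-(r * ∑ j, (s j : ℝ)))) := by
      rcases (ac s).eq_empty_or_nonempty with he | he
      · have hs0 : ∑ j, (s j : ℝ) = 0 := by
          apply Finset.sum_eq_zero
          intro j _
          have : j ∉ ac s := by rw [he]; simp
          have : s j = 0 := by simpa [ac] using this
          simp [this]
        rw [he, mixedDiff_empty, hs0]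
        simpa using hn
      · rw [← hprod]
        exact hd _ _ he
    calc _ ≤ ENNReal.ofReal ((2 : ℝ) ^ (r * ∑ j, (s j : ℝ))) *
        ENNReal.ofReal ((2 : ℝ) ^ (-(r * ∑ j, (s j : ℝ)))) := by gcongr
      _ = 1 := by
        rw [← ENNReal.ofReal_mul (by positivity), ← Real.rpow_add (by norm_num)]
        ring_nf
        simp
  exact ⟨⟨hms.aestronglyMeasurable, hle.trans_lt ENNReal.one_lt_top⟩, hle⟩

lemma sq_int_le_one {d : ℕ} {p : ℝ≥0∞} (hp : 2 ≤ p) {h : (Fin d → ℝ) → ℂ}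
    (h1 : MemLp h p (tor d)) (h2 : eLpNorm h p (tor d) ≤ 1) :
    MemLp h 2 (tor d) ∧ ∫ x, ‖h x‖ ^ 2 ∂(tor d) ≤ 1 := by
  have h3 : MemLp h 2 (tor d) := h1.mono_exponent hp
  refine ⟨h3, ?_⟩
  have h4 : eLpNorm h 2 (tor d) ≤ 1 :=
    (eLpNorm_le_eLpNorm_of_exponent_le hp h1.aestronglyMeasurable).trans h2
  have h5 := h3.eLpNorm_eq_integral_rpow_norm (by norm_num) (by norm_num)
  rw [h5, ENNReal.ofReal_le_one] at h4
  have h6 : 0 ≤ ∫ x, ‖h x‖ ^ (2 : ℝ≥0∞).toReal ∂(tor d) := by positivity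
  have h7 : ∫ x, ‖h x‖ ^ (2 : ℝ≥0∞).toReal ∂(tor d) = ∫ x, ‖h x‖ ^ 2 ∂(tor d) := by
    congr 1
    ext x
    rw [ENNReal.toReal_ofNat]
    exact_mod_cast Real.rpow_natCast ‖h x‖ 2
  rw [h7] at h4 h6
  by_contra hlt
  push Not at hlt
  have h8 := Real.one_lt_rpow hlt (show (0 : ℝ) < ((2 : ℝ≥0∞).toReal)⁻¹ by norm_num)
  linarith

lemma cco_yb {e m : ℕ} (M : ℕ → ℤ → ℂ) (h : (Fin (e + 1) → ℕ) → (Fin (e + 1) → ℝ) → ℂ)
    (k : Qs (e + 1) m) : cco (yb M m h) k =
      ∑ s ∈ shps (e + 1) m, (∏ j, M (s j) ((k : Fin (e + 1) → ℤ) j)) * fc (h s) k := by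
  unfold cco yb
  simp only [Bool.false_eq_true, if_false, if_true]
  exact Complex.re_add_im _

lemma yb_add {e m : ℕ} (M : ℕ → ℤ → ℂ) (h g₁ g₂ : (Fin (e + 1) → ℕ) → (Fin (e + 1) → ℝ) → ℂ)
    (h0 : ∀ s k, fc (h s) k = fc (g₁ s) k + fc (g₂ s) k) : yb M m h = yb M m g₁ + yb M m g₂ := by
  funext i
  have e1 : ∑ s ∈ shps (e + 1) m, (∏ j, M (s j) ((i.1 : Fin (e + 1) → ℤ) j)) * fc (h s) i.1 =
      ∑ s ∈ shps (e + 1) m, (∏ j, M (s j) ((i.1 : Fin (e + 1) → ℤ) j)) * fc (g₁ s) i.1 +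
      ∑ s ∈ shps (e + 1) m, (∏ j, M (s j) ((i.1 : Fin (e + 1) → ℤ) j)) * fc (g₂ s) i.1 := by
    rw [← Finset.sum_add_distrib]
    apply Finset.sum_congr rfl
    intro s _
    rw [h0]
    ring
  simp only [yb, Pi.add_apply, e1]
  split_ifs
  · exact Complex.add_im _ _
  · exact Complex.add_re _ _

end M9

open M9

open scoped Classical in
theorem rep_H_of
    (hsum : ∀ (M : ℕ) (k : ℤ), |k| ≤ 2 ^ M → ∑ s ∈ range (M + 1), eta s k = 1)
    (hzero : ∀ (s : ℕ) (k : ℤ), k.natAbs.size ≠ s → k.natAbs.size ≠ s + 1 → eta s k = 0)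
    (hsupp : ∀ s, 1 ≤ s → ∀ k, eta s k ≠ 0 → 2 ^ (s - 1) < |k| ∧ |k| < 2 ^ (s + 1))
    (hmul : ∃ C ≥ 1, MulFam mH C)
    (hyb_sup : ∀ (e : ℕ) (M : ℕ → ℤ → ℂ) (C : ℝ), MulFam M C →
      ∃ C' ≥ 1, ∀ (m : ℕ) (h : (Fin (e + 1) → ℕ) → (Fin (e + 1) → ℝ) → ℂ) (A : ℝ), 0 ≤ A →
        (∀ s, AEStronglyMeasurable (h s) (tor (e + 1))) → (∀ s x, ‖h s x‖ ≤ A) →
        ∀ x, ‖TT (Qs (e + 1) m) (yb M m h) x‖ ≤ C' * A * ((m : ℝ) + 1) ^ e)
    (hyb_l2 : ∀ (e : ℕ) (M : ℕ → ℤ → ℂ) (C : ℝ), MulFam M C →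
      ∃ C' ≥ 1, ∀ (m : ℕ) (h : (Fin (e + 1) → ℕ) → (Fin (e + 1) → ℝ) → ℂ),
        (∀ s, MemLp (h s) 2 (tor (e + 1))) →
        ∑ i, (yb M m h i) ^ 2 ≤ C' * ∑ s ∈ shps (e + 1) m, ∫ x, ‖h s x‖ ^ 2 ∂(tor (e + 1)))
    (htrunc : ∀ {d : ℕ} (p : ℝ), 2 < p → ∀ (h : (Fin d → ℝ) → ℂ),
      MemLp h (ENNReal.ofReal p) (tor d) → eLpNorm h (ENNReal.ofReal p) (tor d) ≤ 1 →
      ∀ (A : ℝ), 1 ≤ A →
      ∃ g₁ g₂ : (Fin d → ℝ) → ℂ, (∀ x, h x = g₁ x + g₂ x) ∧ MemLp g₁ 2 (tor d) ∧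
        MemLp g₂ 2 (tor d) ∧ (∀ x, ‖g₁ x‖ ≤ A) ∧ ∫ x, ‖g₂ x‖ ^ 2 ∂(tor d) ≤ A ^ (2 - p))
    (e : ℕ) (r p : ℝ) (hr : 0 < r) (hr1 : r < 1) (hp : 2 < p) :
    ∃ C ≥ 1, ∀ f ∈ Hclass (e + 1) ℂ r (ENNReal.ofReal p),
      ∃ y : (m : ℕ) → (Qs (e + 1) m × Bool → ℝ), SRep r p e C f y := by
  obtain ⟨C₀, hC₀, hM⟩ := hmul
  obtain ⟨C₁, hC₁, hs⟩ := hyb_sup e mH C₀ hM
  obtain ⟨C₂, hC₂, hl⟩ := hyb_l2 e mH C₀ hM
  have hCsq : C₂ ≤ (C₁ + C₂) ^ 2 := by nlinarith
  refine ⟨C₁ + C₂, by linarith, fun f hf' => ⟨fun m => yb mH m (hf r f), ?_⟩⟩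
  have hp2 : (2 : ℝ≥0∞) ≤ ENNReal.ofReal p := by
    rw [show (2 : ℝ≥0∞) = ENNReal.ofReal 2 by norm_num]
    exact ENNReal.ofReal_le_ofReal hp.le
  have hmem := fun s => mem_hf r hr1 (ENNReal.ofReal p) hf' s
  have hm : Measurable f := hf'.1
  have hper : Per f := hf'.2.1
  have hn := hf'.2.2.1
  have hmemf : MemLp f (ENNReal.ofReal p) (tor (e + 1)) :=
    ⟨hm.aestronglyMeasurable, hn.trans_lt ENNReal.one_lt_top⟩
  have hi : Integrable f (tor (e + 1)) :=
    hmemf.integrable (le_trans (by norm_num) hp2)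
  have hcard : ∀ m : ℕ, ((shps (e + 1) m).card : ℝ) ≤ ((m : ℝ) + 1) ^ e := by
    intro m
    have := card_shps e m
    exact_mod_cast this
  refine ⟨hi, ?_, ?_, ?_⟩
  · intro k
    have hterm : ∀ m : ℕ, (((2 : ℝ) ^ (-(r * m)) : ℝ) : ℂ) *
        (if h : k ∈ Qs (e + 1) m then cco (yb mH m (hf r f)) ⟨k, h⟩ else 0) =
        ((∑ s ∈ shps (e + 1) m, ∏ j, eta (s j) (k j) : ℝ) : ℂ) * fc f k := by
      intro m
      split_ifs with h
      · rw [cco_yb, Finset.mul_sum]
        push_cast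
        rw [Finset.sum_mul]
        apply Finset.sum_congr rfl
        intro s hs'
        rw [mem_shps] at hs'
        have hs2 : ∑ j, (s j : ℝ) = m := by exact_mod_cast hs'
        rw [fc_hf r hper hm hi, hs2]
        have e1 : (∏ j, mH (s j) (k j)) * (∏ j, (if s j ≠ 0 then
            (Complex.exp (((k j * (2 : ℝ) ^ (-(s j : ℝ)) : ℝ) : ℂ) * Complex.I) - 1) else 1)) =
            ∏ j, (eta (s j) (k j) : ℂ) := by
          rw [← Finset.prod_mul_distrib]
          exact Finset.prod_congr rfl fun j _ => mH_mul hsupp _ _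
        have e2 : (((2 : ℝ) ^ (-(r * m)) : ℝ) : ℂ) * (((2 : ℝ) ^ (r * m) : ℝ) : ℂ) = 1 := by
          rw [← Complex.ofReal_mul, ← Real.rpow_add (by norm_num)]
          simp
        rw [← e1]
        linear_combination ((∏ j, mH (s j) (k j)) * (∏ j, (if s j ≠ 0 then
            (Complex.exp (((k j * (2 : ℝ) ^ (-(s j : ℝ)) : ℝ) : ℂ) * Complex.I) - 1) else 1)) *
            fc f k) * e2
      · have : ∑ s ∈ shps (e + 1) m, ∏ j, eta (s j) (k j) = 0 := by
          apply Finset.sum_eq_zero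
          intro s hs'
          by_contra hne
          exact h (mem_Qs hzero k s hs' hne)
        rw [this]
        simp
    rw [Finset.sum_congr rfl fun m _ => hterm m, ← Finset.sum_mul, ← Complex.ofReal_sum,
      sum_unity hsum hzero k]
    simp
  · intro m
    have h1 := hl m (hf r f) (fun s => (sq_int_le_one hp2 (hmem s).1 (hmem s).2).1)
    rw [Real.rpow_natCast]
    calc ∑ i, (yb mH m (hf r f) i) ^ 2 ≤ _ := h1
      _ ≤ C₂ * ∑ s ∈ shps (e + 1) m, (1 : ℝ) := by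
          apply mul_le_mul_of_nonneg_left _ (by linarith)
          apply Finset.sum_le_sum
          intro s _
          exact (sq_int_le_one hp2 (hmem s).1 (hmem s).2).2
      _ = C₂ * (shps (e + 1) m).card := by simp
      _ ≤ (C₁ + C₂) ^ 2 * ((m : ℝ) + 1) ^ e := by
          apply mul_le_mul hCsq (hcard m) (by positivity) (by positivity)
  · intro m A hA
    choose g₁ g₂ hg hg1 hg2 hg1A hg2A using
      fun s => htrunc p hp (hf r f s) (hmem s).1 (hmem s).2 A hA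
    refine ⟨yb mH m g₁, yb mH m g₂, ?_, ?_, ?_⟩
    · apply yb_add
      intro s k
      unfold fc
      rw [← integral_add]
      · congr 1
        ext x
        rw [hg s x]
        ring
      · exact integrable_mul_ex ((hg1 s).integrable (by norm_num)) _
      · exact integrable_mul_ex ((hg2 s).integrable (by norm_num)) _
    · intro x
      have h1 := hs m g₁ A (by linarith) (fun s => (hg1 s).aestronglyMeasurable) hg1A x
      refine h1.trans ?_
      apply mul_le_mul_of_nonneg_right _ (by positivity)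
      apply mul_le_mul_of_nonneg_right _ (by linarith)
      linarith
    · have h1 := hl m g₂ hg2
      have hApos : 0 ≤ A ^ (2 - p) := by
        apply Real.rpow_nonneg; linarith
      rw [Real.rpow_natCast]
      calc ∑ i, (yb mH m g₂ i) ^ 2 ≤ _ := h1
        _ ≤ C₂ * ∑ s ∈ shps (e + 1) m, A ^ (2 - p) := by
            apply mul_le_mul_of_nonneg_left _ (by linarith)
            apply Finset.sum_le_sum
            intro s _
            exact hg2A s
        _ = C₂ * (shps (e + 1) m).card * A ^ (2 - p) := by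
            rw [Finset.sum_const, nsmul_eq_mul]; ring
        _ ≤ ((C₁ + C₂) ^ 2 * ((m : ℝ) + 1) ^ e) * A ^ (2 - p) := by
            apply mul_le_mul_of_nonneg_right _ hApos
            apply mul_le_mul hCsq (hcard m) (by positivity) (by positivity)
        _ = _ := by ring

end Pool.Agent.Helper42.SB
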